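import Pool.Agent.HW71.Core

/-!
# HW72/Base : powers over arbitrary worlds, tied elements, the local lemma

`Tied X x φ`: `x` is joined both ways to the names `π (φ ω)` for all `π` without fixed point. In a local state with chain
colouring `F` there is a world `ω0` such that `F` of a tied element is `φ ω0`.
-/

namespace HW72

open HJ71 HM71 HW71

variable {V Ω : Type} {w : ℕ} {adj : V → V → Prop} {r : Fin w → V}

def PG (Ω : Type) (adj : V → V → Prop) (x y : Ω → V) : Prop := ∀ ω, adj (x ω) (y ω)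

def cs (Ω : Type) (v : V) : Ω → V := fun _ => v

def na (r : Fin w → V) (φ : Ω → Fin w) : Ω → V := fun ω => r (φ ω)

def Tied (r : Fin w → V) (X : (Ω → V) → (Ω → V) → Prop) (x : Ω → V) (φ : Ω → Fin w) : Prop :=
  ∀ π : Fin w → Fin w, (∀ c, π c ≠ c) →
    X x (na r fun ω => π (φ ω)) ∧ X (na r fun ω => π (φ ω)) x

/-- what is known in a local state -/
structure LG (adj : V → V → Prop) (r : Fin w → V) (Y : (Ω → V) → (Ω → V) → Prop)
    (M : Finset (Ω → V)) (F : (Ω → V) → Fin w) : Prop where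
  pow : ∀ x y, PG Ω adj x y → Y x y
  pre : PreOn M Y
  free : Free w M Y
  rM : ∀ c, cs Ω (r c) ∈ M
  rr : ∀ c c', c ≠ c' → adj (r c) (r c')
  ch : ∀ x ∈ M, ∀ y ∈ M, F x = F y → ¬ Y x y ∨ ¬ Y y x
  Fr : ∀ c, F (cs Ω (r c)) = c

open Classical in
theorem locT [Nonempty Ω] (hrr : ∀ c c', c ≠ c' → adj (r c) (r c')) {l : List Dig}
    (hb : Bas (w + 1) l) (hw : 3 ≤ w) {Cell : Type} [Fintype Cell] (κ : Ω → Cell)
    (X : (Ω → V) → (Ω → V) → Prop) (hX : ∀ x y, PG Ω adj x y → X x y) {ι : Type} (I0 : Finset ι)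
    (x : ι → Ω → V) (g : ι → Cell → Fin w)
    (hT : ∀ i ∈ I0, Tied r X (x i) fun ω => g i (κ ω)) (Ex : Finset (Ω → V)) {c : ℕ}
    (h : ∀ Y : (Ω → V) → (Ω → V) → Prop, (∀ x y, X x y → Y x y) →
      ∀ (ω0 : Ω) (M : Finset (Ω → V)) (F : (Ω → V) → Fin w),
      LG adj r Y M F → (∀ i ∈ I0, x i ∈ M) → (∀ e ∈ Ex, e ∈ M) →
      (∀ i ∈ I0, F (x i) = g i (κ ω0)) →
      (∀ φ : Cell → Fin w, F (na r fun ω => φ (κ ω)) = φ (κ ω0)) →
      (∀ φ : Cell → Fin w, (na r fun ω => φ (κ ω)) ∈ M) →
      Der (w + 1) c l Y) :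
    Der (w + 1) (2 ^ ((w ^ Fintype.card Cell + I0.card + Ex.card) *
      (w ^ Fintype.card Cell + I0.card + Ex.card)) * (c + 5)) l X := by
  let M : Finset (Ω → V) :=
    (Finset.univ.image fun φ : Cell → Fin w => na r fun ω => φ (κ ω)) ∪ (I0.image x) ∪ Ex
  have hM : M.card ≤ w ^ Fintype.card Cell + I0.card + Ex.card := by
    refine (Finset.card_union_le _ _).trans (Nat.add_le_add ?_ le_rfl)
    refine (Finset.card_union_le _ _).trans (Nat.add_le_add ?_ Finset.card_image_le)
    refine Finset.card_image_le.trans ?_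
    simp
  have hnM : ∀ φ : Cell → Fin w, (na r fun ω => φ (κ ω)) ∈ M := fun φ =>
    Finset.mem_union_left _ (Finset.mem_union_left _
      (Finset.mem_image_of_mem _ (Finset.mem_univ φ)))
  have huM : ∀ i ∈ I0, x i ∈ M := fun u hu =>
    Finset.mem_union_left _ (Finset.mem_union_right _ (Finset.mem_image_of_mem _ hu))
  have heM : ∀ u ∈ Ex, u ∈ M := fun u hu => Finset.mem_union_right _ hu
  refine (lcl hb X M (c := c) fun Y hY hP => ?_).up
    (Nat.mul_le_mul (Nat.pow_le_pow_right (by norm_num) (Nat.mul_le_mul hM hM)) le_rfl)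
  by_cases hf : Free w M Y
  swap
  · obtain ⟨f, _, hf⟩ := not_not.1 hf
    exact (Der.of_clo (clo_clique hb f hf)).up (Nat.zero_le _)
  have hPY : ∀ x y, PG Ω adj x y → Y x y := fun x y hxy => hY x y (hX x y hxy)
  have hdiff : ∀ x y : Cell → Fin w, (∀ p, x p ≠ y p) →
      Y (na r fun ω => x (κ ω)) (na r fun ω => y (κ ω)) := fun x y hxy =>
    hPY _ _ fun ω => hrr _ _ (hxy _)
  obtain ⟨f, hfc⟩ := chains hP hf (by omega)
  obtain ⟨p, σ, hpσ⟩ := gl (f := fun φ : Cell → Fin w => f (na r fun ω => φ (κ ω)))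
    (fun x y hxy hne => by
      rcases hfc _ (hnM x) _ (hnM y) hne with h | h
      · exact h (hdiff x y hxy)
      · exact h (hdiff y x fun p => (hxy p).symm)) (a := (⟨0, by omega⟩ : Fin w))
    (b := ⟨1, by omega⟩) (c := ⟨2, by omega⟩) (by simp) (by simp) (by simp)
  obtain ⟨ω0, rfl⟩ : ∃ ω0, κ ω0 = p := by
    by_contra hne
    push Not at hne
    let φ : Cell → Fin w := fun _ => ⟨0, by omega⟩
    let ψ : Cell → Fin w := Function.update φ p ⟨1, by omega⟩
    have hv : (fun ω => φ (κ ω)) = fun ω => ψ (κ ω) := by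
      funext ω
      simp only [ψ]
      rw [Function.update_of_ne (hne ω)]
    have h1 : σ (φ p) = σ (ψ p) := by
      rw [← hpσ, ← hpσ, hv]
    have h2 := σ.injective h1
    simp [φ, ψ] at h2
  have colu : ∀ i ∈ I0, f (x i) = σ (g i (κ ω0)) := by
    intro i hi
    by_contra hd
    obtain ⟨π, hπ, hπb⟩ : ∃ π : Fin w → Fin w, (∀ c, π c ≠ c) ∧
        π (g i (κ ω0)) = σ.symm (f (x i)) := by
      have hne : g i (κ ω0) ≠ σ.symm (f (x i)) := fun hh => hd (by rw [hh]; simp)
      refine ⟨fun y => if y = σ.symm (f (x i)) then g i (κ ω0) else σ.symm (f (x i)),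
        fun y => ?_, by simp [hne]⟩
      by_cases hx : y = σ.symm (f (x i))
      · simpa [hx] using hne
      · simpa [hx] using Ne.symm hx
    have e1 : f (na r fun ω => π (g i (κ ω))) = f (x i) := by
      rw [hpσ fun p => π (g i p), hπb]
      simp
    rcases hfc _ (huM i hi) _ (hnM fun p => π (g i p)) e1.symm with h | h
    · exact h (hY _ _ (hT i hi π hπ).1)
    · exact h (hY _ _ (hT i hi π hπ).2)
  refine h Y hY ω0 M (fun x => σ.symm (f x))
    ⟨hPY, hP, hf, fun c => hnM fun _ => c, hrr, fun x hx y hy hxy =>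
      hfc x hx y hy (σ.symm.injective hxy), fun c => ?_⟩ huM heM (fun u hu => ?_) (fun φ => ?_) hnM
  · show σ.symm (f (na r fun ω => (fun _ => c) (κ ω))) = c
    rw [hpσ fun _ => c]
    simp
  · rw [colu u hu]
    simp
  · rw [hpσ φ]
    simp

open Classical in
noncomputable def bo (r : Fin w → V) (a b : Fin w) (y : Ω → Prop) : Ω → V :=
  na r fun ω => if y ω then a else b

def As (r : Fin w → V) (a b : Fin w) (y : Ω → Prop) (p q : Ω → V) : Prop :=
  (p = bo r a b y ∧ q = cs Ω (r b)) ∨ (q = bo r a b y ∧ p = cs Ω (r b))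

/-- constant of the lemma for four Boolean names and at most `e` tied elements -/
def Ke (w q e s : ℕ) : ℕ :=
  2 ^ ((w ^ (16 * q) + e + s) * (w ^ (16 * q) + e + s))

open Classical in
/-- the local lemma for four Boolean names and tied elements -/
theorem locB [Nonempty Ω] (hrr : ∀ c c', c ≠ c' → adj (r c) (r c')) {l : List Dig}
    (hb : Bas (w + 1) l) (hw : 3 ≤ w) {Cell : Type} [Fintype Cell] (κ : Ω → Cell)
    (y : Fin 4 → Ω → Prop)
    (X : (Ω → V) → (Ω → V) → Prop) (hX : ∀ x y, PG Ω adj x y → X x y) {ι : Type} (I0 : Finset ι)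
    (x : ι → Ω → V) (g : ι → Cell → Fin w)
    (hT : ∀ i ∈ I0, Tied r X (x i) fun ω => g i (κ ω)) (Ex : Finset (Ω → V)) {c : ℕ}
    (h : ∀ Y : (Ω → V) → (Ω → V) → Prop, (∀ x y, X x y → Y x y) →
      ∀ (ω0 : Ω) (M : Finset (Ω → V)) (F : (Ω → V) → Fin w),
      LG adj r Y M F → (∀ i ∈ I0, x i ∈ M) → (∀ e ∈ Ex, e ∈ M) →
      (∀ i ∈ I0, F (x i) = g i (κ ω0)) →
      (∀ i, y i ω0 → ∃ a b, a ≠ b ∧ ∀ p q, As r a b (y i) p q → Y p q) →
      (∀ i a b, a ≠ b → (∀ p q, As r a b (y i) p q → Y p q) → y i ω0) →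
      Der (w + 1) c l Y) :
    Der (w + 1) (Ke w (Fintype.card Cell) I0.card Ex.card * (c + 5)) l X := by
  let κ' : Ω → (Fin 4 → Prop) × Cell := fun ω => (fun i => y i ω, κ ω)
  have hcard : Fintype.card ((Fin 4 → Prop) × Cell) = 16 * Fintype.card Cell := by
    rw [Fintype.card_prod, Fintype.card_fun, Fintype.card_prop, Fintype.card_fin]
    norm_num
  have key := locT (l := l) (c := c) hrr hb hw κ' X hX I0 x (fun i p => g i p.2) hT Ex
    (fun Y hY ω0 M F hL h1 h2 h3 hF hM => by
      refine h Y hY ω0 M F hL h1 h2 h3 (fun i hi => ?_) (fun i a b hab hi => ?_)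
      · have hsame : ∀ φ ψ : (Fin 4 → Prop) × Cell → Fin w, φ (κ' ω0) = ψ (κ' ω0) →
            ¬ Y (na r fun ω => φ (κ' ω)) (na r fun ω => ψ (κ' ω)) ∨
            ¬ Y (na r fun ω => ψ (κ' ω)) (na r fun ω => φ (κ' ω)) := by
          intro φ ψ he
          refine hL.ch _ (hM φ) _ (hM ψ) ?_
          rw [hF φ, hF ψ, he]
        have hdiff : ∀ x y : (Fin 4 → Prop) × Cell → Fin w, (∀ p, x p ≠ y p) →
            Y (na r fun ω => x (κ' ω)) (na r fun ω => y (κ' ω)) := fun x y hxy =>
          hL.pow _ _ fun ω => hrr _ _ (hxy _)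
        have hi' : (κ' ω0).1 i := hi
        obtain ⟨a, b, hab, g1, g2⟩ := forms hL.pre
          (fun a b => na r fun ω => if (κ' ω).1 i then a else b)
          (fun b => na r fun _ => b) (fun a b => hM fun p => if p.1 i then a else b)
          (fun b => hM fun _ => b)
          (fun a b c _ _ => hsame (fun p => if p.1 i then a else b)
            (fun p => if p.1 i then a else c) (by simp [hi']))
          (fun d b _ => hsame (fun _ => d) (fun p => if p.1 i then d else b) (by simp [hi']))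
          (fun a b c hab hac hbc => ⟨hdiff (fun p => if p.1 i then a else c) (fun _ => b) fun p => by
              by_cases h : p.1 i
              · simpa [h] using hab
              · simpa [h] using hbc.symm,
            hdiff (fun _ => b) (fun p => if p.1 i then a else c) fun p => by
              by_cases h : p.1 i
              · simpa [h] using hab.symm
              · simpa [h] using hbc⟩)
          (fun a b d had hdb => hdiff (fun p => if p.1 i then a else d)
            (fun p => if p.1 i then d else b) fun p => by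
              by_cases h : p.1 i
              · simpa [h] using had
              · simpa [h] using hdb)
          (fun b d hbd => hdiff (fun _ => b) (fun _ => d) fun _ => hbd)
          (x := (⟨0, by omega⟩ : Fin w)) (y := ⟨1, by omega⟩) (z := ⟨2, by omega⟩) (by simp)
          (by simp) (by simp)
        refine ⟨a, b, hab, fun p q hpq => ?_⟩
        rcases hpq with ⟨rfl, rfl⟩ | ⟨rfl, rfl⟩
        · exact g1
        · exact g2
      · by_contra hne
        have he : F (bo r a b (y i)) = b := by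
          have e1 := hF fun p => if p.1 i then a else b
          have : ¬ (κ' ω0).1 i := hne
          rw [if_neg this] at e1
          exact e1
        rcases hL.ch (bo r a b (y i)) (hM fun p => if p.1 i then a else b) (cs Ω (r b)) (hL.rM b)
          (he.trans (hL.Fr b).symm) with h' | h'
        · exact h' (hi _ _ (Or.inl ⟨rfl, rfl⟩))
        · exact h' (hi _ _ (Or.inr ⟨rfl, rfl⟩)))
  rw [hcard] at key
  exact key

end HW72
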