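import Pool.Agent.HW72.Line

/-!
# HW72/Elim : elimination of the exceptional vertices outside the bounded part
-/

namespace HW72

open HJ71 HM71 HW71

variable {V : Type} {w : ℕ} {adj : V → V → Prop} {r : Fin w → V} {c0 : Fin w} {A : Finset V}
  {J : Set V} {z : V}

/-- coloured -/
theorem clo_col {l : List Dig} (hrr : ∀ c c', c ≠ c' → adj (r c) (r c')) (hzA : z ∉ A)
    (h : Clo l (NN adj r c0 A (insert z J))) {Y : (Wo V w → V) → (Wo V w → V) → Prop}
    (hY : ∀ x y, NN adj r c0 A J x y → Y x y)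
    (hC : ∃ c, ∀ c', c' ≠ c → Y (cs _ z) (cs _ (r c')) ∧ Y (cs _ (r c')) (cs _ z)) :
    Clo l Y := by
  classical
  obtain ⟨c, hc⟩ := hC
  exact h.hom (fun x ω => x (Function.update ω z (Sum.inl c))) fun x y hxy =>
    NN.upd hY hzA (Sum.inl c) hrr (fun a1 _ a2 _ _ _ ψ hψ => hc (ψ c) (hψ c)) hxy

theorem clo_low {l : List Dig} (hrr : ∀ c c', c ≠ c' → adj (r c) (r c')) (hzA : z ∉ A)
    (h : Clo l (NN adj r c0 A (insert z J))) {Y : (Wo V w → V) → (Wo V w → V) → Prop}
    (hY : ∀ x y, NN adj r c0 A J x y → Y x y)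
    (hC : ∀ a ∈ A, adj z a → Y (cs _ a) (cs _ z)) : Clo l Y := by
  classical
  exact h.hom (fun x ω => x (Function.update ω z (Sum.inr true))) fun x y hxy =>
    NN.upd hY hzA (Sum.inr true) hrr (fun a1 h1 a2 _ e1 _ ψ hψ =>
      ⟨hY _ _ (Or.inl fun _ => e1), hC a1 h1 e1⟩) hxy

theorem clo_high {l : List Dig} (hrr : ∀ c c', c ≠ c' → adj (r c) (r c')) (hzA : z ∉ A)
    (h : Clo l (NN adj r c0 A (insert z J))) {Y : (Wo V w → V) → (Wo V w → V) → Prop}
    (hY : ∀ x y, NN adj r c0 A J x y → Y x y)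
    (hC : ∀ a ∈ A, adj a z → Y (cs _ z) (cs _ a)) : Clo l Y := by
  classical
  exact h.hom (fun x ω => x (Function.update ω z (Sum.inr false))) fun x y hxy =>
    NN.upd hY hzA (Sum.inr false) hrr (fun a1 _ a2 h2 _ e2 ψ hψ =>
      ⟨hC a2 h2 e2, hY _ _ (Or.inl fun _ => e2)⟩) hxy

/-- the constant of one step -/
def Kp (p : ℕ) : ℕ := 2 ^ ((p + 1) * (p + 1)) * 5

open Classical in
theorem low_steps (hrr : ∀ c c', c ≠ c' → adj (r c) (r c')) {p : ℕ}
    (hSA : ∀ u ∈ A, SA adj r p u) (hzA : z ∉ A) (S : Finset V) :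
    ∀ {l : List Dig}, Bas (w + 1) l → Clo l (NN adj r c0 A (insert z J)) →
    ∀ Y : (Wo V w → V) → (Wo V w → V) → Prop, (∀ x y, NN adj r c0 A J x y → Y x y) →
    (∀ c, Y (cs _ (r c)) (cs _ z)) → (∀ a ∈ A, adj z a → a ∉ S → Y (cs _ a) (cs _ z)) →
    Der (w + 1) (S.card * Kp p) l Y := by
  induction S using Finset.induction_on with
  | empty =>
    intro l hb h Y hY _ h2
    exact (Der.of_clo (clo_low hrr hzA h hY fun a ha e => h2 a ha e (Finset.notMem_empty _))).up
      (Nat.zero_le _)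
  | insert a S ha ih =>
    intro l hb h Y hY h1 h2
    by_cases haA : a ∈ A ∧ adj z a
    swap
    · refine (ih hb h Y hY h1 fun a' ha' e hS => h2 a' ha' e fun hin => ?_).up
        (Nat.mul_le_mul_right _ (Finset.card_le_card (Finset.subset_insert _ _)))
      rcases Finset.mem_insert.1 hin with h3 | h3
      · exact haA ⟨h3 ▸ ha', h3 ▸ e⟩
      · exact hS h3
    rw [Finset.card_insert_of_notMem ha, Nat.add_mul, Nat.one_mul]
    refine Der.bind (ih hb h (Add Y (cs _ a) (cs _ z)) (fun x y hxy => Or.inl (hY x y hxy))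
      (fun c => Or.inl (h1 c)) (fun a' ha' e hS => ?_)) fun l' hl' hc => ?_
    · by_cases haa : a' = a
      · rw [haa]
        exact Or.inr ⟨rfl, rfl⟩
      · exact Or.inl (h2 a' ha' e fun hin => (Finset.mem_insert.1 hin).elim haa hS)
    · obtain ⟨B, hB, haB, hrB, hcol⟩ := hSA a haA.1
      let M : Finset (Wo V w → V) := (insert z B).image fun x => cs _ x
      have hM : M.card ≤ p + 1 := Finset.card_image_le.trans
        ((Finset.card_insert_le _ _).trans (Nat.add_le_add_right hB 1))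
      have hBM : ∀ x ∈ B, cs _ x ∈ M := fun x hx =>
        Finset.mem_image_of_mem _ (Finset.mem_insert_of_mem hx)
      have hzM : cs _ z ∈ M := Finset.mem_image_of_mem _ (Finset.mem_insert_self _ _)
      refine (lcl (hb.sub hl') Y M (c := 0) fun Y' hY' hP => ?_).up
        (Nat.mul_le_mul (Nat.pow_le_pow_right (by norm_num) (Nat.mul_le_mul hM hM)) (by norm_num))
      refine Der.of_clo ?_
      by_cases hf : Free w M Y'
      swap
      · obtain ⟨f, _, hf⟩ := not_not.1 hf
        exact clo_clique (hb.sub hl') f hf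
      by_cases hC : ∃ c, ∀ c', c' ≠ c → Y' (cs _ z) (cs _ (r c')) ∧ Y' (cs _ (r c')) (cs _ z)
      · exact clo_col hrr hzA (h.sub hl') (fun x y hxy => hY' _ _ (hY x y hxy)) hC
      refine hc.le ?_
      rintro x y (hxy | ⟨rfl, rfl⟩)
      · exact hY' _ _ hxy
      · obtain ⟨c1, hc1⟩ := hcol _ (fun x => cs _ x) M Y' hBM
          (fun x y hxy => hY' _ _ (hY _ _ (Or.inl fun _ => hxy))) hP hf
        by_contra hn
        refine hC ⟨c1, fun c' hc' => ⟨?_, hY' _ _ (h1 c')⟩⟩
        by_contra h3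
        exact hP.2 _ (hBM a haB) _ hzM _ (hBM _ (hrB c')) hn h3 (hc1.2 c' hc').1

open Classical in
theorem high_steps (hrr : ∀ c c', c ≠ c' → adj (r c) (r c')) {p : ℕ}
    (hSA : ∀ u ∈ A, SA adj r p u) (hzA : z ∉ A) (S : Finset V) :
    ∀ {l : List Dig}, Bas (w + 1) l → Clo l (NN adj r c0 A (insert z J)) →
    ∀ Y : (Wo V w → V) → (Wo V w → V) → Prop, (∀ x y, NN adj r c0 A J x y → Y x y) →
    (∀ c, Y (cs _ z) (cs _ (r c))) → (∀ a ∈ A, adj a z → a ∉ S → Y (cs _ z) (cs _ a)) →
    Der (w + 1) (S.card * Kp p) l Y := by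
  induction S using Finset.induction_on with
  | empty =>
    intro l hb h Y hY _ h2
    exact (Der.of_clo (clo_high hrr hzA h hY fun a ha e => h2 a ha e (Finset.notMem_empty _))).up
      (Nat.zero_le _)
  | insert a S ha ih =>
    intro l hb h Y hY h1 h2
    by_cases haA : a ∈ A ∧ adj a z
    swap
    · refine (ih hb h Y hY h1 fun a' ha' e hS => h2 a' ha' e fun hin => ?_).up
        (Nat.mul_le_mul_right _ (Finset.card_le_card (Finset.subset_insert _ _)))
      rcases Finset.mem_insert.1 hin with h3 | h3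
      · exact haA ⟨h3 ▸ ha', h3 ▸ e⟩
      · exact hS h3
    rw [Finset.card_insert_of_notMem ha, Nat.add_mul, Nat.one_mul]
    refine Der.bind (ih hb h (Add Y (cs _ z) (cs _ a)) (fun x y hxy => Or.inl (hY x y hxy))
      (fun c => Or.inl (h1 c)) (fun a' ha' e hS => ?_)) fun l' hl' hc => ?_
    · by_cases haa : a' = a
      · rw [haa]
        exact Or.inr ⟨rfl, rfl⟩
      · exact Or.inl (h2 a' ha' e fun hin => (Finset.mem_insert.1 hin).elim haa hS)
    · obtain ⟨B, hB, haB, hrB, hcol⟩ := hSA a haA.1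
      let M : Finset (Wo V w → V) := (insert z B).image fun x => cs _ x
      have hM : M.card ≤ p + 1 := Finset.card_image_le.trans
        ((Finset.card_insert_le _ _).trans (Nat.add_le_add_right hB 1))
      have hBM : ∀ x ∈ B, cs _ x ∈ M := fun x hx =>
        Finset.mem_image_of_mem _ (Finset.mem_insert_of_mem hx)
      have hzM : cs _ z ∈ M := Finset.mem_image_of_mem _ (Finset.mem_insert_self _ _)
      refine (lcl (hb.sub hl') Y M (c := 0) fun Y' hY' hP => ?_).up
        (Nat.mul_le_mul (Nat.pow_le_pow_right (by norm_num) (Nat.mul_le_mul hM hM)) (by norm_num))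
      refine Der.of_clo ?_
      by_cases hf : Free w M Y'
      swap
      · obtain ⟨f, _, hf⟩ := not_not.1 hf
        exact clo_clique (hb.sub hl') f hf
      by_cases hC : ∃ c, ∀ c', c' ≠ c → Y' (cs _ z) (cs _ (r c')) ∧ Y' (cs _ (r c')) (cs _ z)
      · exact clo_col hrr hzA (h.sub hl') (fun x y hxy => hY' _ _ (hY x y hxy)) hC
      refine hc.le ?_
      rintro x y (hxy | ⟨rfl, rfl⟩)
      · exact hY' _ _ hxy
      · obtain ⟨c1, hc1⟩ := hcol _ (fun x => cs _ x) M Y' hBM
          (fun x y hxy => hY' _ _ (hY _ _ (Or.inl fun _ => hxy))) hP hf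
        by_contra hn
        refine hC ⟨c1, fun c' hc' => ⟨hY' _ _ (h1 c'), ?_⟩⟩
        by_contra h3
        exact hP.2 _ (hBM _ (hrB c')) _ hzM _ (hBM a haB) h3 hn (hc1.2 c' hc').2

open Classical in
/-- elimination of one vertex -/
theorem elim_z [Fintype V] (hrr : ∀ c c', c ≠ c' → adj (r c) (r c')) (hw : 3 ≤ w) {p : ℕ}
    (hp : w ≤ p) (hSA : ∀ u ∈ A, SA adj r p u) (hzA : z ∉ A) {l : List Dig}
    (hb : Bas (w + 1) l) (h : Clo l (NN adj r c0 A (insert z J))) :
    Der (w + 1) (3 * Fintype.card V * Kp p) l (NN adj r c0 A J) := by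
  let XL : (Wo V w → V) → (Wo V w → V) → Prop := fun x y =>
    NN adj r c0 A J x y ∨ ∃ c, x = cs _ (r c) ∧ y = cs _ z
  let XH : (Wo V w → V) → (Wo V w → V) → Prop := fun x y =>
    NN adj r c0 A J x y ∨ ∃ c, x = cs _ z ∧ y = cs _ (r c)
  have hn : 1 ≤ Fintype.card V := Fintype.card_pos_iff.2 ⟨r ⟨0, by omega⟩⟩
  have dL : Der (w + 1) (Fintype.card V * Kp p) l XL :=
    low_steps hrr hSA hzA Finset.univ hb h XL (fun x y hxy => Or.inl hxy)
      (fun c => Or.inr ⟨c, rfl, rfl⟩) fun a _ _ hn => absurd (Finset.mem_univ a) hn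
  have key : Der (w + 1) (Fintype.card V * Kp p + (Fintype.card V * Kp p + Kp p)) l
      (NN adj r c0 A J) := by
    refine Der.bind dL fun l1 hl1 hL => ?_
    refine Der.bind (high_steps hrr hSA hzA Finset.univ (hb.sub hl1) (h.sub hl1) XH
      (fun x y hxy => Or.inl hxy) (fun c => Or.inr ⟨c, rfl, rfl⟩)
      fun a _ _ hn => absurd (Finset.mem_univ a) hn) fun l2 hl2 hH => ?_
    let M : Finset (Wo V w → V) := insert (cs _ z) (Finset.univ.image fun c => cs _ (r c))
    have hM : M.card ≤ p + 1 := (Finset.card_insert_le _ _).trans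
      (Nat.add_le_add_right ((card_img _).trans hp) 1)
    refine (lcl ((hb.sub hl1).sub hl2) (NN adj r c0 A J) M (c := 0) fun Y hY hP => ?_).up
      (Nat.mul_le_mul (Nat.pow_le_pow_right (by norm_num) (Nat.mul_le_mul hM hM)) (by norm_num))
    refine Der.of_clo ?_
    rcases status1 hP (Finset.mem_insert_self _ _) (g := fun c => cs _ (r c))
      (fun c => Finset.mem_insert_of_mem (Finset.mem_image_of_mem _ (Finset.mem_univ c)))
      (fun c c' hcc => hY _ _ (Or.inl fun _ => hrr c c' hcc)) with hC | hC | hC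
    · exact clo_col hrr hzA ((h.sub hl1).sub hl2) hY hC
    · refine (hL.sub hl2).le ?_
      rintro x y (hxy | ⟨c, rfl, rfl⟩)
      · exact hY _ _ hxy
      · exact hC c
    · refine hH.le ?_
      rintro x y (hxy | ⟨c, rfl, rfl⟩)
      · exact hY _ _ hxy
      · exact hC c
  refine key.up ?_
  have : Kp p ≤ Fintype.card V * Kp p := Nat.le_mul_of_pos_left _ hn
  nlinarith

open Classical in
/-- elimination of all vertices of `I` -/
theorem elims [Fintype V] (hrr : ∀ c c', c ≠ c' → adj (r c) (r c')) (hw : 3 ≤ w) {p : ℕ}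
    (hp : w ≤ p) (hSA : ∀ u ∈ A, SA adj r p u) (I : Finset V) : (∀ z ∈ I, z ∉ A) →
    ∀ {l : List Dig}, Bas (w + 1) l → Clo l (NN adj r c0 A (I : Set V)) →
    Der (w + 1) (I.card * (3 * Fintype.card V * Kp p)) l (NN adj r c0 A (∅ : Set V)) := by
  induction I using Finset.induction_on with
  | empty =>
    intro _ l _ h
    refine (Der.of_clo (h.le fun x y hxy => ?_)).up (Nat.zero_le _)
    simpa using hxy
  | insert z I hz ih =>
    intro hI l hb h
    rw [Finset.card_insert_of_notMem hz]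
    refine (Der.bind (elim_z hrr hw hp hSA (J := (I : Set V)) (hI z (Finset.mem_insert_self _ _))
      hb (h.le fun x y hxy => by simpa using hxy)) fun l' hl' hc =>
      ih (fun u hu => hI u (Finset.mem_insert_of_mem hu)) (hb.sub hl') hc).up ?_
    ring_nf
    exact le_rfl

/-- back to the landed line -/
theorem to_Lv {l : List Dig} (h : Clo l (NN adj r c0 A (∅ : Set V))) :
    Clo l (Lv adj r (A : Set V)) := by
  refine h.hom (fun x ω => x fun v => Sum.inl (ω v)) ?_
  have key : ∀ x y, TT adj r c0 A (∅ : Set V) x y → ∃ v ∈ (A : Set V), ∃ π : Fin w → Fin w,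
      (∀ c, π c ≠ c) ∧ (fun ω : V → Fin w => x fun v => Sum.inl (ω v)) = cst w v ∧
      (fun ω : V → Fin w => y fun v => Sum.inl (ω v)) = nm r fun ω => π (ω v) := by
    intro x y hxy
    cases hxy with
    | a u hu π hπ => exact ⟨u, hu, π, hπ, rfl, rfl⟩
    | b z hz => exact absurd hz (Set.notMem_empty _)
    | c z hz => exact absurd hz (Set.notMem_empty _)
  rintro x y (hxy | hxy | hxy)
  · exact Or.inl fun ω => hxy _
  · obtain ⟨v, hv, π, hπ, e1, e2⟩ := key _ _ hxy
    exact Or.inr ⟨v, hv, π, hπ, Or.inl ⟨e1, e2⟩⟩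
  · obtain ⟨v, hv, π, hπ, e1, e2⟩ := key _ _ hxy
    exact Or.inr ⟨v, hv, π, hπ, Or.inr ⟨e1, e2⟩⟩

end HW72
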