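import Pool.Agent.HW72.Walk

/-!
# HW72/ExcW : exceptional vertices in a local state, over arbitrary worlds
-/

namespace HW72

open HJ71 HM71 HW71

variable {V Ω : Type} {w : ℕ} {adj : V → V → Prop} {r : Fin w → V}
  {Y : (Ω → V) → (Ω → V) → Prop} {M : Finset (Ω → V)} {F : (Ω → V) → Fin w}

def CldW (Y : (Ω → V) → (Ω → V) → Prop) (r : Fin w → V) (z : V) : Prop :=
  ∃ c, ∀ c', c' ≠ c → Y (cs Ω z) (cs Ω (r c')) ∧ Y (cs Ω (r c')) (cs Ω z)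

def LowW (Y : (Ω → V) → (Ω → V) → Prop) (r : Fin w → V) (z : V) : Prop :=
  ∃ d d', d ≠ d' ∧ ¬ Y (cs Ω z) (cs Ω (r d)) ∧ ¬ Y (cs Ω z) (cs Ω (r d'))

def HighW (Y : (Ω → V) → (Ω → V) → Prop) (r : Fin w → V) (z : V) : Prop :=
  ∃ d d', d ≠ d' ∧ ¬ Y (cs Ω (r d)) (cs Ω z) ∧ ¬ Y (cs Ω (r d')) (cs Ω z)

theorem LG.status (h : LG adj r Y M F) {z : V} (hz : cs Ω z ∈ M) :
    CldW Y r z ∨ LowW Y r z ∨ HighW Y r z := by
  have hcl : ∀ c c', c ≠ c' → Y (cs Ω (r c)) (cs Ω (r c')) := fun c c' hc =>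
    h.pow _ _ fun _ => h.rr c c' hc
  obtain ⟨c, hc⟩ := clique_ext h.free hz h.rM hcl
  by_cases hC : CldW Y r z
  · exact Or.inl hC
  have : ∃ c', c' ≠ c ∧ ¬ (Y (cs Ω z) (cs Ω (r c')) ∧ Y (cs Ω (r c')) (cs Ω z)) := by
    by_contra hne
    push Not at hne
    exact hC ⟨c, fun c' hc' => hne c' hc'⟩
  obtain ⟨c', hcc, hc'⟩ := this
  rw [not_and_or] at hc hc'
  rcases hc with hc | hc <;> rcases hc' with hc' | hc'
  · exact Or.inr (Or.inl ⟨c, c', hcc.symm, hc, hc'⟩)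
  · exact absurd (hcl _ _ hcc) (h.pre.2 _ (h.rM c') _ hz _ (h.rM c) hc' hc)
  · exact absurd (hcl _ _ hcc.symm) (h.pre.2 _ (h.rM c) _ hz _ (h.rM c') hc hc')
  · exact Or.inr (Or.inr ⟨c, c', hcc.symm, hc, hc'⟩)

theorem LG.low_out (h : LG adj r Y M F) {z u : V} (hz : cs Ω z ∈ M) (hu : cs Ω u ∈ M)
    (hl : LowW Y r z) (hc : CldW Y r u) (ha : adj z u) (hF : F (cs Ω z) = F (cs Ω u)) : False := by
  obtain ⟨d, d', hdd, h1, h2⟩ := hl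
  obtain ⟨c, hc⟩ := hc
  have hzu : Y (cs Ω z) (cs Ω u) := h.pow _ _ fun _ => ha
  have hn : ¬ Y (cs Ω u) (cs Ω z) := (h.ch _ hz _ hu hF).resolve_left (not_not.2 hzu)
  have key : ∀ e, e ≠ c → ¬ Y (cs Ω z) (cs Ω (r e)) → False := fun e he h3 =>
    h.pre.2 _ hu _ hz _ (h.rM e) hn h3 (hc e he).1
  by_cases hd : d = c
  · exact key d' (fun h3 => hdd (hd.trans h3.symm)) h2
  · exact key d hd h1

theorem LG.high_in (h : LG adj r Y M F) {z u : V} (hz : cs Ω z ∈ M) (hu : cs Ω u ∈ M)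
    (hl : HighW Y r z) (hc : CldW Y r u) (ha : adj u z) (hF : F (cs Ω z) = F (cs Ω u)) : False := by
  obtain ⟨d, d', hdd, h1, h2⟩ := hl
  obtain ⟨c, hc⟩ := hc
  have hzu : Y (cs Ω u) (cs Ω z) := h.pow _ _ fun _ => ha
  have hn : ¬ Y (cs Ω z) (cs Ω u) := (h.ch _ hz _ hu hF).resolve_right (not_not.2 hzu)
  have key : ∀ e, e ≠ c → ¬ Y (cs Ω (r e)) (cs Ω z) → False := fun e he h3 =>
    h.pre.2 _ (h.rM e) _ hz _ hu h3 hn (hc e he).2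
  by_cases hd : d = c
  · exact key d' (fun h3 => hdd (hd.trans h3.symm)) h2
  · exact key d hd h1

theorem LG.low_high (h : LG adj r Y M F) {z z' : V} (hz : cs Ω z ∈ M) (hz' : cs Ω z' ∈ M)
    (hl : LowW Y r z) (hh : HighW Y r z') (ha : adj z z') (hF : F (cs Ω z) = F (cs Ω z')) :
    False := by
  obtain ⟨d, d', hdd, h1, h2⟩ := hl
  obtain ⟨e, e', hee, h3, h4⟩ := hh
  have hzu : Y (cs Ω z) (cs Ω z') := h.pow _ _ fun _ => ha
  have hn : ¬ Y (cs Ω z') (cs Ω z) := (h.ch _ hz _ hz' hF).resolve_left (not_not.2 hzu)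
  have key : ∀ d e, e ≠ d → ¬ Y (cs Ω z) (cs Ω (r d)) → ¬ Y (cs Ω (r e)) (cs Ω z') → False := by
    intro d e hed h5 h6
    refine h.pre.2 _ (h.rM e) _ hz' _ (h.rM d) h6 (h.pre.2 _ hz' _ hz _ (h.rM d) hn h5) ?_
    exact h.pow _ _ fun _ => h.rr _ _ hed
  by_cases hd : e = d
  · exact key d' e (fun h5 => hdd (hd.symm.trans h5)) h2 h3
  · exact key d e hd h1 h3

theorem LG.cycle (h : LG adj r Y M F) {E : Finset V} (hE : ∀ x ∈ E, cs Ω x ∈ M) {x : V}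
    (hx : Relation.TransGen (fun x y => x ∈ E ∧ y ∈ E ∧ adj x y ∧ F (cs Ω x) = F (cs Ω y)) x x) :
    False := by
  have key : ∀ {x y : V}, Relation.TransGen
      (fun x y => x ∈ E ∧ y ∈ E ∧ adj x y ∧ F (cs Ω x) = F (cs Ω y)) x y →
      ¬ Y (cs Ω y) (cs Ω x) ∧ x ∈ E ∧ y ∈ E := by
    intro x y hxy
    induction hxy with
    | single h1 =>
      exact ⟨(h.ch _ (hE _ h1.1) _ (hE _ h1.2.1) h1.2.2.2).resolve_left
        (not_not.2 (h.pow _ _ fun _ => h1.2.2.1)), h1.1, h1.2.1⟩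
    | tail _ h1 ih =>
      have h2 := (h.ch _ (hE _ h1.1) _ (hE _ h1.2.1) h1.2.2.2).resolve_left
        (not_not.2 (h.pow _ _ fun _ => h1.2.2.1))
      exact ⟨h.pre.2 _ (hE _ h1.2.1) _ (hE _ h1.1) _ (hE _ ih.2.1) h2 ih.1, ih.2.1, h1.2.1⟩
  obtain ⟨y, h1, h2⟩ := Relation.TransGen.head'_iff.1 hx
  rcases Relation.reflTransGen_iff_eq_or_transGen.1 h2 with h3 | h3
  · rw [h3] at h1
    exact h.pre.1 _ (hE _ h1.1) (h.pow _ _ fun _ => h1.2.2.1)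
  · exact (key h3).1 (h.pow _ _ fun _ => h1.2.2.1)

end HW72
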