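import Pool.Agent.HW72.TupW

/-!
# HW72/LeafW : the line `NN I` is closed
-/

namespace HW72

open HJ71 HM71 HW71

variable {V : Type} {w : ℕ} {adj : V → V → Prop} {r : Fin w → V} {c0 : Fin w}
  {A I EA EB EE : Finset V}

open Classical in
/-- the alternatives in a world -/
theorem splitW [Nonempty V] (hEA : EA ⊆ EE) (hEB : EB ⊆ EE)
    (dA : ∀ x ∈ EA, x ∉ A) (dB : ∀ x ∈ EB, x ∉ A) (dE : ∀ x ∈ EA, x ∉ EB)
    (hIA : ∀ x ∈ I, x ∉ A) (hIE : ∀ x ∈ I, x ∉ EE) {S : Set V}
    (hS : ∀ x ∈ S, x ∈ A ∨ x ∈ EA ∨ x ∈ EB ∨ x ∈ I)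
    (hI : ∀ x ∈ I, ∀ y ∈ S, adj x y ∨ adj y x → y ∈ A)
    (hno : NoCol w adj S) (ω : Wo V w) :
    (∃ u v, (u ∈ A ∨ u ∈ I) ∧ (v ∈ A ∨ v ∈ I) ∧ adj u v ∧
      Relation.TransGen (Mo adj c0 A I ω) v u) ∨
      (∃ t : EE × Fin w → V, ytw adj c0 A EA EB EE t ω) ∨
      ∃ z ∈ I, ∃ q s, yi adj c0 A z q s ω := by
  by_contra hcon
  rw [not_or, not_or] at hcon
  obtain ⟨n1, n2, n3⟩ := hcon
  have ht : ∀ q : EE × Fin w, ∃ u : V, ∀ u', HitW adj c0 A EA EB q.1.1 u' q.2 ω →
      HitW adj c0 A EA EB q.1.1 u q.2 ω := by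
    intro q
    by_cases h : ∃ u', HitW adj c0 A EA EB q.1.1 u' q.2 ω
    · obtain ⟨u, hu⟩ := h
      exact ⟨u, fun _ _ => hu⟩
    · exact ⟨Classical.arbitrary V, fun u' h' => absurd ⟨u', h'⟩ h⟩
  choose t ht using ht
  refine n2 ⟨t, fun g => ?_⟩
  by_contra hne
  have hne' : ∀ (z : EE) (u : V), ¬ HitW adj c0 A EA EB z.1 u (g z) ω := fun z u h =>
    hne (Or.inl ⟨z, ht (z, g z) u h⟩)
  have hbad : ¬ BadG adj EA EB EE g := fun hb => hne (Or.inr hb)
  -- a free colour for the low and high vertices of `I`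
  have hfree : ∀ z : V, ∃ c : Fin w, z ∈ I → ∀ q, ω z = Sum.inr q → ∀ a ∈ A,
      (if q then adj z a else adj a z) → cw c0 (ω a) ≠ c := by
    intro z
    by_contra hc
    push Not at hc
    choose hz q hq s hs1 hs2 hs3 using hc
    refine n3 ⟨z, hz c0, q c0, s, hq c0, fun c => ⟨hs1 c, ?_, hs3 c⟩⟩
    have e : q c = q c0 := by
      have := (hq c).symm.trans (hq c0)
      simpa using this
    have := hs2 c
    rw [e] at this
    exact this
  choose f hf using hfree
  let ω' : V → Fin w := fun x =>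
    if x ∈ A then cw c0 (ω x) else if x ∈ I then cw (f x) (ω x)
    else if h : x ∈ EE then g ⟨x, h⟩ else c0
  have oA : ∀ x ∈ A, ω' x = cw c0 (ω x) := fun x hx => by simp [ω', hx]
  have oI : ∀ x ∈ I, ω' x = cw (f x) (ω x) := fun x hx => by simp [ω', hIA x hx, hx]
  have oE : ∀ x (hx : x ∈ EE), x ∉ A → ω' x = g ⟨x, hx⟩ := fun x hx hA => by
    have : x ∉ I := fun h => hIE x h hx
    simp [ω', hx, hA, this]
  let lam : V → ℕ := fun x =>
    if x ∈ A then 1 else if x ∈ I then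
      (match ω x with | Sum.inl _ => 1 | Sum.inr true => 0 | Sum.inr false => 2)
    else if x ∈ EA then 0 else 2
  have lA : ∀ x ∈ A, lam x = 1 := fun x hx => by simp [lam, hx]
  have lI : ∀ x ∈ I, ∀ c, ω x = Sum.inl c → lam x = 1 := fun x hx c h => by
    simp [lam, hIA x hx, hx, h]
  have lIt : ∀ x ∈ I, ω x = Sum.inr true → lam x = 0 := fun x hx h => by
    simp [lam, hIA x hx, hx, h]
  have lIf : ∀ x ∈ I, ω x = Sum.inr false → lam x = 2 := fun x hx h => by
    simp [lam, hIA x hx, hx, h]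
  have lEA : ∀ x ∈ EA, lam x = 0 := fun x hx => by
    have : x ∉ I := fun h => hIE x h (hEA hx)
    simp [lam, dA x hx, hx, this]
  have lEB : ∀ x ∈ EB, lam x = 2 := fun x hx => by
    have h1 : x ∉ EA := fun h => dE x h hx
    have h2 : x ∉ I := fun h => hIE x h (hEB hx)
    simp [lam, dB x hx, h1, h2]
  have lle : ∀ x, lam x ≤ 2 := fun x => by
    by_cases h1 : x ∈ A
    · rw [lA x h1]
      norm_num
    · by_cases h2 : x ∈ I
      · rcases h : ω x with c | q
        · rw [lI x h2 c h]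
          norm_num
        · cases q
          · rw [lIf x h2 h]
          · rw [lIt x h2 h]
            norm_num
      · by_cases h3 : x ∈ EA
        · rw [lEA x h3]
          norm_num
        · simp [lam, h1, h2, h3]
  obtain ⟨x, hx⟩ := hno ω'
  have hR : ∀ x y, (x ∈ S ∧ y ∈ S ∧ adj x y ∧ ω' x = ω' y) → lam y ≤ lam x := by
    rintro x y ⟨hx, hy, ha, he⟩
    rcases hS x hx with hx' | hx' | hx' | hx'
    · rw [lA x hx']
      rcases hS y hy with hy' | hy' | hy' | hy'
      · rw [lA y hy']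
      · rw [lEA y hy']
        exact Nat.zero_le _
      · exfalso
        rw [oA x hx', oE y (hEB hy') (dB y hy')] at he
        exact hne' ⟨y, hEB hy'⟩ x (Or.inr ⟨hy', hx', ha, he⟩)
      · rcases h : ω y with c | q
        · rw [lI y hy' c h]
        · cases q
          · exfalso
            rw [oA x hx', oI y hy', h] at he
            exact hf y hy' false h x hx' (by simpa using ha) he
          · rw [lIt y hy' h]
            exact Nat.zero_le _
    · rcases hS y hy with hy' | hy' | hy' | hy'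
      · exfalso
        rw [oA y hy', oE x (hEA hx') (dA x hx')] at he
        exact hne' ⟨x, hEA hx'⟩ y (Or.inl ⟨hx', hy', ha, he.symm⟩)
      · rw [lEA y hy']
        exact Nat.zero_le _
      · exfalso
        rw [oE x (hEA hx') (dA x hx'), oE y (hEB hy') (dB y hy')] at he
        exact hbad (Or.inl ⟨⟨x, hEA hx'⟩, ⟨y, hEB hy'⟩, hx', hy', ha, he⟩)
      · exact absurd (hI y hy' x hx (Or.inr ha)) (dA x hx')
    · rw [lEB x hx']
      exact lle y
    · have hyA := hI x hx' y hy (Or.inl ha)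
      rw [lA y hyA]
      rcases h : ω x with c | q
      · rw [lI x hx' c h]
      · cases q
        · rw [lIf x hx' h]
          norm_num
        · exfalso
          rw [oA y hyA, oI x hx', h] at he
          exact hf x hx' true h y hyA (by simpa using ha) he.symm
  have h2 := layer hR hx
  have h0 : x ∈ S := by
    obtain ⟨y, h3, _⟩ := Relation.TransGen.head'_iff.1 hx
    exact h3.1
  have inE : ∀ {E' : Finset V} (_ : E' ⊆ EE) (_ : ∀ x ∈ E', x ∉ A)
      (_ : ∀ y z, y ∈ S → z ∈ S → adj y z → lam y = lam x → lam z = lam x →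
        y ∈ E' ∧ z ∈ E'),
      ∃ x : EE, Relation.TransGen
        (fun x y : EE => x.1 ∈ E' ∧ y.1 ∈ E' ∧ adj x.1 y.1 ∧ g x = g y) x x := by
    intro E' hE' hd hl
    obtain ⟨hx, _, h3⟩ := lift_sub (S := EE)
      (Q := fun x y : EE => x.1 ∈ E' ∧ y.1 ∈ E' ∧ adj x.1 y.1 ∧ g x = g y)
      (fun a b h => by
        have h4 := hl a b h.1.1 h.1.2.1 h.1.2.2.1 h.2.1 h.2.2
        exact ⟨hE' h4.1, hE' h4.2⟩)
      (fun a b ha hb h => by
        have h4 := hl a b h.1.1 h.1.2.1 h.1.2.2.1 h.2.1 h.2.2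
        refine ⟨h4.1, h4.2, h.1.2.2.1, ?_⟩
        have := h.1.2.2.2
        rwa [oE a ha (hd a h4.1), oE b hb (hd b h4.2)] at this) h2
    exact ⟨⟨x, hx⟩, h3⟩
  -- a layer without coloured vertices avoids `I`
  have noI : lam x ≠ 1 → ∀ y z, y ∈ S → z ∈ S → adj y z → lam y = lam x → lam z = lam x →
      (y ∉ I ∧ y ∉ A) ∧ z ∉ I ∧ z ∉ A := by
    intro hx1 y z hy hz ha hly hlz
    have hyA : y ∉ A := fun h => hx1 (hly.symm.trans (lA y h))
    have hzA : z ∉ A := fun h => hx1 (hlz.symm.trans (lA z h))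
    exact ⟨⟨fun h => hzA (hI y h z hz (Or.inl ha)), hyA⟩,
      fun h => hyA (hI z h y hy (Or.inr ha)), hzA⟩
  by_cases hx1 : lam x = 1
  · -- the cycle is in the coloured layer
    have hCo : ∀ y ∈ S, lam y = 1 → Co c0 A I ω y (ω' y) := by
      intro y hy hly
      rcases hS y hy with h | h | h | h
      · exact Or.inl ⟨h, (oA y h).symm⟩
      · rw [lEA y h] at hly
        exact absurd hly (by norm_num)
      · rw [lEB y h] at hly
        exact absurd hly (by norm_num)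
      · rcases hω : ω y with c | q
        · refine Or.inr ⟨h, hIA y h, ?_⟩
          rw [oI y h, hω]
          rfl
        · cases q
          · rw [lIf y h hω] at hly
            exact absurd hly (by norm_num)
          · rw [lIt y h hω] at hly
            exact absurd hly (by norm_num)
    have hAI : ∀ y ∈ S, lam y = 1 → y ∈ A ∨ y ∈ I := fun y hy hly =>
      (hCo y hy hly).imp (fun h => h.1) fun h => h.1
    have h3 : Relation.TransGen (fun a b => (a ∈ A ∨ a ∈ I) ∧ (b ∈ A ∨ b ∈ I) ∧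
        Mo adj c0 A I ω a b) x x := by
      refine Relation.TransGen.mono (fun a b h => ?_) _ _ h2
      have la : lam a = 1 := h.2.1.trans hx1
      have lb : lam b = 1 := h.2.2.trans hx1
      refine ⟨hAI a h.1.1 la, hAI b h.1.2.1 lb, h.1.2.2.1, ω' a, hCo a h.1.1 la, ?_⟩
      rw [h.1.2.2.2]
      exact hCo b h.1.2.1 lb
    have h4 : Relation.TransGen (Mo adj c0 A I ω) x x :=
      Relation.TransGen.mono (fun a b h => h.2.2) _ _ h3
    obtain ⟨y, h5, _⟩ := Relation.TransGen.head'_iff.1 h3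
    obtain ⟨y', h6, h7⟩ := Relation.TransGen.head'_iff.1 h3
    rcases Relation.reflTransGen_iff_eq_or_transGen.1 h7 with h | h
    · rw [h] at h6
      exact n1 ⟨_, _, h6.1, h6.1, h6.2.2.1, .single h6.2.2⟩
    · exact n1 ⟨x, y', h6.1, h6.2.1, h6.2.2.1,
        Relation.TransGen.mono (fun a b h => h.2.2) _ _ h⟩
  · have hcase : ∀ y ∈ S, y ∉ I → y ∉ A → y ∈ EA ∨ y ∈ EB := fun y hy h1 h2 => by
      rcases hS y hy with h | h | h | h
      · exact absurd h h2
      · exact Or.inl h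
      · exact Or.inr h
      · exact absurd h h1
    by_cases hx0 : lam x = 0
    · refine hbad (Or.inr (Or.inl (inE hEA dA fun y z hy hz ha hly hlz => ?_)))
      obtain ⟨⟨h1, h2⟩, h3, h4⟩ := noI hx1 y z hy hz ha hly hlz
      refine ⟨(hcase y hy h1 h2).resolve_right fun h => ?_,
        (hcase z hz h3 h4).resolve_right fun h => ?_⟩
      · rw [lEB y h, hx0] at hly
        exact absurd hly (by norm_num)
      · rw [lEB z h, hx0] at hlz
        exact absurd hlz (by norm_num)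
    · refine hbad (Or.inr (Or.inr (inE hEB dB fun y z hy hz ha hly hlz => ?_)))
      obtain ⟨⟨h1, h2⟩, h3, h4⟩ := noI hx1 y z hy hz ha hly hlz
      refine ⟨(hcase y hy h1 h2).resolve_left fun h => ?_,
        (hcase z hz h3 h4).resolve_left fun h => ?_⟩
      · rw [lEA y h] at hly
        exact hx0 hly.symm
      · rw [lEA z h] at hlz
        exact hx0 hlz.symm

theorem clo_colZW {l : List Dig} {z : V} (h : ∀ c, Clo l (ColZ adj r z c))
    {Y : (Wo V w → V) → (Wo V w → V) → Prop} (hY : ∀ x y, PG _ adj x y → Y x y)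
    (hz : CldW Y r z) : Clo l Y := by
  obtain ⟨c, hc⟩ := hz
  refine (h c).hom (cs _) ?_
  rintro x y (h1 | ⟨c', hc', ⟨rfl, rfl⟩ | ⟨rfl, rfl⟩⟩)
  · exact hY _ _ fun _ => h1
  · exact (hc c' hc').1
  · exact (hc c' hc').2

/-- the cost, `N` tuples for the bounded part, `m` witnesses for `I` -/
def LW (w b p n N m : ℕ) : ℕ :=
  (n + 1) * (n * n * (w * w * KA w b p)) + w * w * N * KA w b p + w * w * (2 * m) * KA w b p +
    (n * n + (N + 2 * m) + 1) * (w * w * KA w b p)

open Classical in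
theorem leafW [Fintype V] (hrr : ∀ c c', c ≠ c' → adj (r c) (r c')) {l : List Dig}
    (hb : Bas (w + 1) l) (hw : 3 ≤ w) {p b : ℕ} (hSA : ∀ u ∈ A, SA adj r p u)
    (hEE : EE.card ≤ b) (hEA : EA ⊆ EE) (hEB : EB ⊆ EE)
    (dA : ∀ z ∈ EA, ∀ c, adj (r c) z) (dB : ∀ z ∈ EB, ∀ c, adj z (r c))
    (hcl : ∀ z, (z ∈ EA ∨ z ∈ EB) → ∀ c, Clo l (ColZ adj r z c))
    {o i : V → V} (hoi : ∀ z ∈ I, o z ∈ A ∧ i z ∈ A ∧ adj z (o z) ∧ adj (i z) z)
    (hIA : ∀ z ∈ I, z ∉ A)
    (hno : ∀ ω : Wo V w, (∃ u v, (u ∈ A ∨ u ∈ I) ∧ (v ∈ A ∨ v ∈ I) ∧ adj u v ∧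
      Relation.TransGen (Mo adj c0 A I ω) v u) ∨
      (∃ t : EE × Fin w → V, ytw adj c0 A EA EB EE t ω) ∨
      ∃ z ∈ I, ∃ q s, yi adj c0 A z q s ω) :
    ∃ l', Ext (w + 1) (LW w b p (Fintype.card V) (Fintype.card (EE × Fin w → V))
      (I.card * Fintype.card V ^ w)) l l' ∧ Clo l' (NN adj r c0 A (I : Set V)) := by
  let L : List V := (A ∪ I).toList
  have hL : ∀ z, z ∈ A ∨ z ∈ I → z ∈ L := fun z hz => by simpa [L] using hz
  have hLl : L.length ≤ Fintype.card V := by
    simpa [L] using Finset.card_le_univ (A ∪ I)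
  have hKW : KW w ≤ KA w b p := KA_ge (by omega) (by omega) (by omega)
  obtain ⟨l1, e1, h1⟩ := gw_all (c0 := c0) (A := A) (I := I) hrr hb hw hoi L
    fun z hz => by simpa [L] using hz
  -- the tuples
  let S : Finset ((Fin w × Fin w) × (EE × Fin w → V)) :=
    Finset.univ.filter fun q => q.1.1 ≠ q.1.2
  have hS : S.card ≤ w * w * Fintype.card (EE × Fin w → V) := by
    refine (Finset.card_filter_le _ _).trans ?_
    rw [Finset.card_univ, Fintype.card_prod, Fintype.card_prod, Fintype.card_fin]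
  obtain ⟨l2, e2, h2⟩ := der_all (k := w + 1) (l := l1) S
    (W := fun _ => Wo V w → V)
    (fun q => XW adj r c0 A I q.1.1 q.1.2 (ytw adj c0 A EA EB EE q.2)) (c := KA w b p)
    (fun q hq => tupW_der hrr (hb.ext e1) hw hSA hEE hEA hEB dA dB
      (fun Y hY z hz hC => clo_colZW (fun c => (hcl z hz c).sub e1.1) hY hC) q.2
      (Finset.mem_filter.1 hq).2) l1 fun T h => h
  -- the isolated vertices
  let P3 : Finset ((V × Bool) × (Fin w → V)) := (I ×ˢ Finset.univ) ×ˢ Finset.univ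
  have hP3 : P3.card = 2 * (I.card * Fintype.card V ^ w) := by
    rw [Finset.card_product, Finset.card_product, Finset.card_univ, Finset.card_univ,
      Fintype.card_bool, Fintype.card_fun, Fintype.card_fin]
    ring
  let S3 : Finset ((Fin w × Fin w) × ((V × Bool) × (Fin w → V))) :=
    (Finset.univ.filter fun q => q.1 ≠ q.2) ×ˢ P3
  have hS3 : S3.card ≤ w * w * (2 * (I.card * Fintype.card V ^ w)) := by
    rw [Finset.card_product, hP3]
    refine Nat.mul_le_mul_right _ ((Finset.card_filter_le _ _).trans ?_)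
    simp
  obtain ⟨l3, e3, h3⟩ := der_all (k := w + 1) (l := l2) S3
    (W := fun _ => Wo V w → V)
    (fun q => XW adj r c0 A I q.1.1 q.1.2 (yi adj c0 A q.2.1.1 q.2.1.2 q.2.2)) (c := KA w b p)
    (fun q hq => by
      obtain ⟨hq1, hq2⟩ := Finset.mem_product.1 hq
      exact yi_der hrr ((hb.ext e1).ext e2) hw hoi hIA
        (Finset.mem_product.1 (Finset.mem_product.1 hq2).1).1 _ _ (Finset.mem_filter.1 hq1).2)
    l2 fun T h => h
  -- the disjunction
  let y : (V × V) ⊕ ((EE × Fin w → V) ⊕ ((V × Bool) × (Fin w → V))) → Wo V w → Prop :=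
    fun j ω =>
    match j with
    | Sum.inl q => yw adj c0 A I L q.2 q.1 ω
    | Sum.inr (Sum.inl t) => ytw adj c0 A EA EB EE t ω
    | Sum.inr (Sum.inr q) => yi adj c0 A q.1.1 q.1.2 q.2 ω
  let P1 : Finset (V × V) := Finset.univ.filter fun q =>
    (q.1 ∈ A ∨ q.1 ∈ I) ∧ (q.2 ∈ A ∨ q.2 ∈ I) ∧ adj q.1 q.2
  let P : Finset ((V × V) ⊕ ((EE × Fin w → V) ⊕ ((V × Bool) × (Fin w → V)))) :=
    P1.disjSum (Finset.univ.disjSum P3)
  have hP : P.card ≤ Fintype.card V * Fintype.card V +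
      (Fintype.card (EE × Fin w → V) + 2 * (I.card * Fintype.card V ^ w)) := by
    rw [Finset.card_disjSum, Finset.card_disjSum, hP3, Finset.card_univ]
    refine Nat.add_le_add_right ?_ _
    refine (Finset.card_filter_le _ _).trans ?_
    rw [Finset.card_univ, Fintype.card_prod]
  obtain ⟨l4, e4, h4⟩ := orw (c0 := c0) (A := A) (I := I) hrr (((hb.ext e1).ext e2).ext e3) hw y P
    (by
      rintro (q | t | q) hi a b hab
      · obtain ⟨hu, hv, ha⟩ : (q.1 ∈ A ∨ q.1 ∈ I) ∧ (q.2 ∈ A ∨ q.2 ∈ I) ∧ adj q.1 q.2 :=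
          (Finset.mem_filter.1 (Finset.inl_mem_disjSum.1 hi)).2
        refine (((h1 a b hab q.2 q.1 hv hu).sub e2.1).sub e3.1).le ?_
        rintro x z (h | h | ⟨rfl, rfl⟩)
        · exact Or.inl h
        · exact Or.inr h
        · exact Or.inl (Or.inl fun _ => ha)
      · exact (h2 ((a, b), t) (by simp [S, hab])).sub e3.1
      · have hq : q ∈ P3 := Finset.inr_mem_disjSum.1 (Finset.inr_mem_disjSum.1 hi)
        exact h3 ((a, b), q) (Finset.mem_product.2
          ⟨Finset.mem_filter.2 ⟨Finset.mem_univ _, hab⟩, hq⟩))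
  have hab : (⟨0, by omega⟩ : Fin w) ≠ ⟨1, by omega⟩ := by simp
  refine ⟨l4, (((e1.trans e2).trans e3).trans e4).up ?_, (h4 _ _ hab).le ?_⟩
  · unfold LW
    refine Nat.add_le_add (Nat.add_le_add (Nat.add_le_add ?_ ?_) ?_) ?_
    · exact Nat.mul_le_mul (Nat.add_le_add_right hLl 1)
        (Nat.mul_le_mul_left _ (Nat.mul_le_mul_left _ hKW))
    · exact Nat.mul_le_mul_right _ hS
    · exact Nat.mul_le_mul_right _ hS3
    · exact Nat.mul_le_mul (Nat.add_le_add_right hP 1) (Nat.mul_le_mul_left _ hKW)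
  · have hx : ∀ ω : Wo V w, ∃ j ∈ P, y j ω := by
      intro ω
      rcases hno ω with ⟨u, v, hu, hv, h5, h6⟩ | ⟨t, ht⟩ | ⟨z, hz, q, s, hs⟩
      · exact ⟨Sum.inl (u, v), Finset.inl_mem_disjSum.2
          (Finset.mem_filter.2 ⟨Finset.mem_univ _, hu, hv, h5⟩), yw_tg L hL ω h6⟩
      · exact ⟨Sum.inr (Sum.inl t), Finset.inr_mem_disjSum.2
          (Finset.inl_mem_disjSum.2 (Finset.mem_univ _)), ht⟩
      · exact ⟨Sum.inr (Sum.inr ((z, q), s)), Finset.inr_mem_disjSum.2
          (Finset.inr_mem_disjSum.2 (Finset.mem_product.2 ⟨Finset.mem_product.2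
            ⟨hz, Finset.mem_univ _⟩, Finset.mem_univ _⟩)), hs⟩
    have hbn : bo r ⟨0, by omega⟩ ⟨1, by omega⟩ (fun ω : Wo V w => ∃ j ∈ P, y j ω) =
        cs _ (r ⟨0, by omega⟩) := by
      funext ω
      have := hx ω
      simp only [bo, na, cs]
      rw [if_pos this]
    rintro p q (h | h)
    · exact h
    · rcases h with ⟨h5, h6⟩ | ⟨h5, h6⟩
      · rw [h5, h6, hbn]
        exact Or.inl fun _ => hrr _ _ hab
      · rw [h5, h6, hbn]
        exact Or.inl fun _ => hrr _ _ hab.symm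

end HW72
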