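import Pool.Agent.HW72.Base

/-!
# HW72/Line : the lines `NN J` and the elimination of one exceptional vertex

The worlds give to each vertex a colour or one of the marks low (`true`), high (`false`).
-/

namespace HW72

open HJ71 HM71 HW71

variable {V : Type} {w : ℕ} {adj : V → V → Prop} {r : Fin w → V} {c0 : Fin w} {A : Finset V}

/-- the worlds -/
abbrev Wo (V : Type) (w : ℕ) : Type := V → Fin w ⊕ Bool

def cw (c0 : Fin w) : Fin w ⊕ Bool → Fin w
  | Sum.inl c => c
  | Sum.inr _ => c0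

def gg (r : Fin w → V) (z a1 a2 : V) (ψ : Fin w → Fin w) (ω : Wo V w) : V :=
  match ω z with
  | Sum.inl c => r (ψ c)
  | Sum.inr true => a1
  | Sum.inr false => a2

def gf (c0 : Fin w) (z a1 a2 : V) (ψ : Fin w → Fin w) (ω : Wo V w) : Fin w :=
  match ω z with
  | Sum.inl c => ψ c
  | Sum.inr true => cw c0 (ω a1)
  | Sum.inr false => cw c0 (ω a2)

/-- the additional pairs -/
inductive TT (adj : V → V → Prop) (r : Fin w → V) (c0 : Fin w) (A : Finset V) (J : Set V) :
    (Wo V w → V) → (Wo V w → V) → Prop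
  | a (u : V) (hu : u ∈ A) (π : Fin w → Fin w) (hπ : ∀ c, π c ≠ c) :
      TT adj r c0 A J (cs _ u) (na r fun ω => π (cw c0 (ω u)))
  | b (z : V) (hz : z ∈ J) (a1 a2 : V) (h1 : a1 ∈ A) (h2 : a2 ∈ A) (e1 : adj z a1)
      (e2 : adj a2 z) (ψ : Fin w → Fin w) (hψ : ∀ c, ψ c ≠ c) :
      TT adj r c0 A J (cs _ z) (gg r z a1 a2 ψ)
  | c (z : V) (hz : z ∈ J) (a1 a2 : V) (h1 : a1 ∈ A) (h2 : a2 ∈ A) (e1 : adj z a1)
      (e2 : adj a2 z) (ψ : Fin w → Fin w) (hψ : ∀ c, ψ c ≠ c) (π : Fin w → Fin w)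
      (hπ : ∀ c, π c ≠ c) :
      TT adj r c0 A J (gg r z a1 a2 ψ) (na r fun ω => π (gf c0 z a1 a2 ψ ω))

def NN (adj : V → V → Prop) (r : Fin w → V) (c0 : Fin w) (A : Finset V) (J : Set V)
    (x y : Wo V w → V) : Prop :=
  PG _ adj x y ∨ TT adj r c0 A J x y ∨ TT adj r c0 A J y x

theorem tied_a {J : Set V} {u : V} (hu : u ∈ A) :
    Tied r (NN adj r c0 A J) (cs _ u) fun ω => cw c0 (ω u) := fun π hπ =>
  ⟨Or.inr (Or.inl (.a u hu π hπ)), Or.inr (Or.inr (.a u hu π hπ))⟩

theorem tied_g {J : Set V} {z a1 a2 : V} (hz : z ∈ J) (h1 : a1 ∈ A) (h2 : a2 ∈ A)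
    (e1 : adj z a1) (e2 : adj a2 z) {ψ : Fin w → Fin w} (hψ : ∀ c, ψ c ≠ c) :
    Tied r (NN adj r c0 A J) (gg r z a1 a2 ψ) (gf c0 z a1 a2 ψ) := fun π hπ =>
  ⟨Or.inr (Or.inl (.c z hz a1 a2 h1 h2 e1 e2 ψ hψ π hπ)),
    Or.inr (Or.inr (.c z hz a1 a2 h1 h2 e1 e2 ψ hψ π hπ))⟩

theorem Tied.mono {Ω : Type} {X Y : (Ω → V) → (Ω → V) → Prop} {x : Ω → V} {φ : Ω → Fin w}
    (h : Tied r X x φ) (hXY : ∀ x y, X x y → Y x y) : Tied r Y x φ := fun π hπ =>
  ⟨hXY _ _ (h π hπ).1, hXY _ _ (h π hπ).2⟩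

/-- the image of a line in a state with known status of `z` -/
theorem NN.upd [DecidableEq V] {J : Set V} {z : V} {Y : (Wo V w → V) → (Wo V w → V) → Prop}
    (hY : ∀ x y, NN adj r c0 A J x y → Y x y) (hzA : z ∉ A) (s : Fin w ⊕ Bool)
    (hrr : ∀ c c', c ≠ c' → adj (r c) (r c'))
    (hs : ∀ a1 ∈ A, ∀ a2 ∈ A, adj z a1 → adj a2 z → ∀ ψ : Fin w → Fin w, (∀ c, ψ c ≠ c) →
      Y (cs _ z) (cs _ (gg r z a1 a2 ψ fun _ => s)) ∧
        Y (cs _ (gg r z a1 a2 ψ fun _ => s)) (cs _ z))
    {x y : Wo V w → V} (h : NN adj r c0 A (insert z J) x y) :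
    Y (fun ω => x (Function.update ω z s)) (fun ω => y (Function.update ω z s)) := by
  have key : ∀ x y, TT adj r c0 A (insert z J) x y →
      Y (fun ω => x (Function.update ω z s)) (fun ω => y (Function.update ω z s)) ∧
      Y (fun ω => y (Function.update ω z s)) (fun ω => x (Function.update ω z s)) := by
    intro x y hxy
    cases hxy with
    | a u hu π hπ =>
      have huz : u ≠ z := fun h => hzA (h ▸ hu)
      have e1 : (fun ω : Wo V w => cs (Wo V w) u (Function.update ω z s)) = cs _ u := rfl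
      have e2 : (fun ω : Wo V w => na r (fun ω => π (cw c0 (ω u))) (Function.update ω z s)) =
          na r (fun ω => π (cw c0 (ω u))) := by
        funext ω
        simp [na, Function.update_of_ne huz]
      rw [e1, e2]
      exact ⟨hY _ _ (Or.inr (Or.inl (.a u hu π hπ))), hY _ _ (Or.inr (Or.inr (.a u hu π hπ)))⟩
    | b z' hz' a1 a2 h1 h2 g1 g2 ψ hψ =>
      have e1 : (fun ω : Wo V w => cs (Wo V w) z' (Function.update ω z s)) = cs _ z' := rfl
      by_cases hzz : z' = z
      · subst hzz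
        have e2 : (fun ω : Wo V w => gg r z' a1 a2 ψ (Function.update ω z' s)) =
            cs _ (gg r z' a1 a2 ψ fun _ => s) := by
          funext ω
          simp [gg, cs]
        rw [e1, e2]
        exact hs a1 h1 a2 h2 g1 g2 ψ hψ
      · have hz'J : z' ∈ J := hz'.resolve_left hzz
        have e2 : (fun ω : Wo V w => gg r z' a1 a2 ψ (Function.update ω z s)) =
            gg r z' a1 a2 ψ := by
          funext ω
          simp [gg, Function.update_of_ne hzz]
        rw [e1, e2]
        exact ⟨hY _ _ (Or.inr (Or.inl (.b z' hz'J a1 a2 h1 h2 g1 g2 ψ hψ))),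
          hY _ _ (Or.inr (Or.inr (.b z' hz'J a1 a2 h1 h2 g1 g2 ψ hψ)))⟩
    | c z' hz' a1 a2 h1 h2 g1 g2 ψ hψ π hπ =>
      have h1z : a1 ≠ z := fun h => hzA (h ▸ h1)
      have h2z : a2 ≠ z := fun h => hzA (h ▸ h2)
      by_cases hzz : z' = z
      · subst hzz
        have e2 : (fun ω : Wo V w => gg r z' a1 a2 ψ (Function.update ω z' s)) =
            cs _ (gg r z' a1 a2 ψ fun _ => s) := by
          funext ω
          simp [gg, cs]
        rw [e2]
        rcases s with c | q
        · have e3 : (fun ω : Wo V w => na r (fun ω => π (gf c0 z' a1 a2 ψ ω))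
              (Function.update ω z' (Sum.inl c))) = cs _ (r (π (ψ c))) := by
            funext ω
            simp [na, gf, cs]
          rw [e3]
          exact ⟨hY _ _ (Or.inl fun _ => hrr _ _ (hπ _).symm),
            hY _ _ (Or.inl fun _ => hrr _ _ (hπ _))⟩
        · cases q
          · have e3 : (fun ω : Wo V w => na r (fun ω => π (gf c0 z' a1 a2 ψ ω))
                (Function.update ω z' (Sum.inr false))) =
                na r (fun ω => π (cw c0 (ω a2))) := by
              funext ω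
              simp [na, gf, Function.update_of_ne h2z]
            rw [e3]
            exact ⟨hY _ _ (Or.inr (Or.inl (.a a2 h2 π hπ))),
              hY _ _ (Or.inr (Or.inr (.a a2 h2 π hπ)))⟩
          · have e3 : (fun ω : Wo V w => na r (fun ω => π (gf c0 z' a1 a2 ψ ω))
                (Function.update ω z' (Sum.inr true))) =
                na r (fun ω => π (cw c0 (ω a1))) := by
              funext ω
              simp [na, gf, Function.update_of_ne h1z]
            rw [e3]
            exact ⟨hY _ _ (Or.inr (Or.inl (.a a1 h1 π hπ))),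
              hY _ _ (Or.inr (Or.inr (.a a1 h1 π hπ)))⟩
      · have hz'J : z' ∈ J := hz'.resolve_left hzz
        have e2 : (fun ω : Wo V w => gg r z' a1 a2 ψ (Function.update ω z s)) =
            gg r z' a1 a2 ψ := by
          funext ω
          simp [gg, Function.update_of_ne hzz]
        have e3 : (fun ω : Wo V w => na r (fun ω => π (gf c0 z' a1 a2 ψ ω))
            (Function.update ω z s)) = na r (fun ω => π (gf c0 z' a1 a2 ψ ω)) := by
          funext ω
          simp [na, gf, Function.update_of_ne hzz, Function.update_of_ne h1z,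
            Function.update_of_ne h2z]
        rw [e2, e3]
        exact ⟨hY _ _ (Or.inr (Or.inl (.c z' hz'J a1 a2 h1 h2 g1 g2 ψ hψ π hπ))),
          hY _ _ (Or.inr (Or.inr (.c z' hz'J a1 a2 h1 h2 g1 g2 ψ hψ π hπ)))⟩
  rcases h with h | h | h
  · exact hY _ _ (Or.inl fun ω => h _)
  · exact (key _ _ h).1
  · exact (key _ _ h).2

end HW72
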