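import Pool.Agent.HW72.Line

/-!
# HW72/Loc : the local lemma for the lines `NN J`
-/

namespace HW72

open HJ71 HM71 HW71

variable {V : Type} {w : ℕ} {adj : V → V → Prop} {r : Fin w → V} {c0 : Fin w} {A : Finset V}
  {J : Set V}

/-- a vertex, two neighbours, a map of the colours -/
abbrev Qd (V : Type) (w : ℕ) : Type := V × V × V × (Fin w → Fin w)

open Classical in
noncomputable def el (r : Fin w → V) (A : Finset V) (q : Qd V w) : Wo V w → V :=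
  if q.1 ∈ A then cs _ q.1 else gg r q.1 q.2.1 q.2.2.1 q.2.2.2

open Classical in
noncomputable def ph (c0 : Fin w) (A : Finset V) (q : Qd V w) (ω : Wo V w) : Fin w :=
  if q.1 ∈ A then cw c0 (ω q.1) else gf c0 q.1 q.2.1 q.2.2.1 q.2.2.2 ω

def Gd (adj : V → V → Prop) (A : Finset V) (J : Set V) (q : Qd V w) : Prop :=
  q.1 ∈ A ∨ (q.1 ∈ J ∧ q.2.1 ∈ A ∧ q.2.2.1 ∈ A ∧ adj q.1 q.2.1 ∧ adj q.2.2.1 q.1 ∧
    ∀ c, q.2.2.2 c ≠ c)

theorem Gd.tied {q : Qd V w} (h : Gd adj A J q) :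
    Tied r (NN adj r c0 A J) (el r A q) (ph c0 A q) := by
  by_cases hA : q.1 ∈ A
  · have := tied_a (adj := adj) (r := r) (c0 := c0) (J := J) hA
    have e : ph c0 A q = fun ω => cw c0 (ω q.1) := by
      funext ω
      simp [ph, hA]
    rw [e]
    simpa [el, hA] using this
  · obtain ⟨h1, h2, h3, h4, h5, h6⟩ := h.resolve_left hA
    have := tied_g (r := r) (c0 := c0) h1 h2 h3 h4 h5 h6
    have e : ph c0 A q = gf c0 q.1 q.2.1 q.2.2.1 q.2.2.2 := by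
      funext ω
      simp [ph, hA]
    rw [e]
    simpa [el, hA] using this

open Classical in
noncomputable def ex (T : Finset V) (p : T → Fin w ⊕ Bool) : Wo V w := fun v =>
  if h : v ∈ T then p ⟨v, h⟩ else Sum.inr true

theorem ex_eq {T : Finset V} (ω : Wo V w) {v : V} (hv : v ∈ T) :
    ex T (fun t : T => ω t) v = ω v := by
  simp [ex, hv]

theorem ph_ex {T : Finset V} (ω : Wo V w) {q : Qd V w} (h1 : q.1 ∈ T) (h2 : q.2.1 ∈ T)
    (h3 : q.2.2.1 ∈ T) : ph c0 A q (ex T fun t : T => ω t) = ph c0 A q ω := by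
  unfold ph gf
  rw [ex_eq ω h1, ex_eq ω h2, ex_eq ω h3]

/-- constant -/
def KN (w q s : ℕ) : ℕ :=
  2 ^ ((w ^ (16 * (w + 2) ^ (3 * q)) + q + s) * (w ^ (16 * (w + 2) ^ (3 * q)) + q + s))

theorem KN_mono {w q s q' s' : ℕ} (hw : 1 ≤ w) (hq : q ≤ q') (hs : s ≤ s') :
    KN w q s ≤ KN w q' s' := by
  have h : w ^ (16 * (w + 2) ^ (3 * q)) + q + s ≤ w ^ (16 * (w + 2) ^ (3 * q')) + q' + s' :=
    Nat.add_le_add (Nat.add_le_add (Nat.pow_le_pow_right hw (Nat.mul_le_mul_left _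
      (Nat.pow_le_pow_right (by omega) (Nat.mul_le_mul_left _ hq)))) hq) hs
  exact Nat.pow_le_pow_right (by norm_num) (Nat.mul_le_mul h h)

open Classical in
theorem locN (hrr : ∀ c c', c ≠ c' → adj (r c) (r c')) {l : List Dig}
    (hb : Bas (w + 1) l) (hw : 3 ≤ w) (y : Fin 4 → Wo V w → Prop)
    (X : (Wo V w → V) → (Wo V w → V) → Prop) (hX : ∀ x y, NN adj r c0 A J x y → X x y)
    (Q : Finset (Qd V w)) (hQ : ∀ q ∈ Q, Gd adj A J q) (Ex : Finset (Wo V w → V)) {q s c : ℕ}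
    (hq : Q.card ≤ q) (hs : Ex.card ≤ s)
    (h : ∀ Y : (Wo V w → V) → (Wo V w → V) → Prop, (∀ x y, X x y → Y x y) →
      ∀ (ω0 : Wo V w) (M : Finset (Wo V w → V)) (F : (Wo V w → V) → Fin w),
      LG adj r Y M F → (∀ q ∈ Q, el r A q ∈ M) → (∀ e ∈ Ex, e ∈ M) →
      (∀ q ∈ Q, F (el r A q) = ph c0 A q ω0) →
      (∀ i, y i ω0 → ∃ a b, a ≠ b ∧ ∀ p q, As r a b (y i) p q → Y p q) →
      (∀ i a b, a ≠ b → (∀ p q, As r a b (y i) p q → Y p q) → y i ω0) →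
      Der (w + 1) c l Y) :
    Der (w + 1) (KN w q s * (c + 5)) l X := by
  have hne : Nonempty (Wo V w) := ⟨fun _ => Sum.inr true⟩
  let T : Finset V := (Q.image fun q => q.1) ∪ (Q.image fun q => q.2.1) ∪
    (Q.image fun q => q.2.2.1)
  have hT : T.card ≤ 3 * q := by
    have a1 := Finset.card_union_le ((Q.image fun q => q.1) ∪ (Q.image fun q => q.2.1))
      (Q.image fun q => q.2.2.1)
    have a2 := Finset.card_union_le (Q.image fun q => q.1) (Q.image fun q => q.2.1)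
    have a3 : (Q.image fun q => q.1).card ≤ Q.card := Finset.card_image_le
    have a4 : (Q.image fun q => q.2.1).card ≤ Q.card := Finset.card_image_le
    have a5 : (Q.image fun q => q.2.2.1).card ≤ Q.card := Finset.card_image_le
    exact a1.trans (by omega)
  have m1 : ∀ q ∈ Q, q.1 ∈ T := fun q hq => Finset.mem_union_left _
    (Finset.mem_union_left _ (Finset.mem_image_of_mem (fun q : Qd V w => q.1) hq))
  have m2 : ∀ q ∈ Q, q.2.1 ∈ T := fun q hq => Finset.mem_union_left _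
    (Finset.mem_union_right _ (Finset.mem_image_of_mem (fun q : Qd V w => q.2.1) hq))
  have m3 : ∀ q ∈ Q, q.2.2.1 ∈ T := fun q hq =>
    Finset.mem_union_right _ (Finset.mem_image_of_mem (fun q : Qd V w => q.2.2.1) hq)
  have hcard : Fintype.card (T → Fin w ⊕ Bool) ≤ (w + 2) ^ (3 * q) := by
    rw [Fintype.card_fun, Fintype.card_sum, Fintype.card_fin, Fintype.card_bool,
      Fintype.card_coe]
    exact Nat.pow_le_pow_right (by omega) hT
  have hsz : w ^ (16 * Fintype.card (T → Fin w ⊕ Bool)) + Q.card + Ex.card ≤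
      w ^ (16 * (w + 2) ^ (3 * q)) + q + s :=
    Nat.add_le_add (Nat.add_le_add (Nat.pow_le_pow_right (by omega)
      (Nat.mul_le_mul_left _ hcard)) hq) hs
  refine (locB hrr hb hw (fun ω : Wo V w => fun t : T => ω t) y X
    (fun x y hxy => hX x y (Or.inl hxy)) Q (el r A) (fun q p => ph c0 A q (ex T p))
    (fun q hq => ?_) Ex (c := c) (fun Y hY ω0 M F hL h1 h2 h3 h4 h5 =>
      h Y hY ω0 M F hL h1 h2 (fun q hq => ?_) h4 h5)).up
    (Nat.mul_le_mul (Nat.pow_le_pow_right (by norm_num) (Nat.mul_le_mul hsz hsz)) le_rfl)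
  · have e : (fun ω : Wo V w => ph c0 A q (ex T fun t : T => ω t)) = ph c0 A q := by
      funext ω
      exact ph_ex ω (m1 q hq) (m2 q hq) (m3 q hq)
    rw [e]
    exact (hQ q hq).tied.mono hX
  · rw [h3 q hq]
    exact ph_ex ω0 (m1 q hq) (m2 q hq) (m3 q hq)

section facts

variable {Y : (Wo V w → V) → (Wo V w → V) → Prop} {M : Finset (Wo V w → V)}
  {F : (Wo V w → V) → Fin w} {ω0 : Wo V w} {z a1 a2 : V}

theorem F_ne (hL : LG adj r Y M F) (hY : ∀ x y, NN adj r c0 A J x y → Y x y) (hzA : z ∉ A)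
    (hz : z ∈ J) (h1 : a1 ∈ A) (h2 : a2 ∈ A) (e1 : adj z a1) (e2 : adj a2 z)
    {ψ : Fin w → Fin w} (hψ : ∀ c, ψ c ≠ c) (hzM : cs _ z ∈ M)
    (hM : el r A (z, a1, a2, ψ) ∈ M)
    (hF : F (el r A (z, a1, a2, ψ)) = ph c0 A (z, a1, a2, ψ) ω0) :
    F (cs _ z) ≠ gf c0 z a1 a2 ψ ω0 := by
  intro he
  have e : el r A (z, a1, a2, ψ) = gg r z a1 a2 ψ := by simp [el, hzA]
  have e' : ph c0 A (z, a1, a2, ψ) ω0 = gf c0 z a1 a2 ψ ω0 := by simp [ph, hzA]
  rw [e, e'] at hF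
  rw [e] at hM
  rcases hL.ch _ hzM _ hM (he.trans hF.symm) with h | h
  · exact h (hY _ _ (Or.inr (Or.inl (.b z hz a1 a2 h1 h2 e1 e2 ψ hψ))))
  · exact h (hY _ _ (Or.inr (Or.inr (.b z hz a1 a2 h1 h2 e1 e2 ψ hψ))))

theorem fpf_ex {c d : Fin w} (h : d ≠ c) : ∃ ψ : Fin w → Fin w, (∀ x, ψ x ≠ x) ∧ ψ c = d := by
  refine ⟨fun x => if x = d then c else d, fun x => ?_, by simp [h.symm]⟩
  by_cases hx : x = d
  · simpa [hx] using h.symm
  · simpa [hx] using Ne.symm hx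

end facts

/-- `u` has the colour `c` in the world -/
def Co (c0 : Fin w) (A I : Finset V) (ω : Wo V w) (u : V) (c : Fin w) : Prop :=
  (u ∈ A ∧ cw c0 (ω u) = c) ∨ (u ∈ I ∧ u ∉ A ∧ ω u = Sum.inl c)

open Classical in
noncomputable def Qv (o i : V → V) (u : V) : Finset (Qd V w) :=
  (Finset.univ.filter fun ψ : Fin w → Fin w => ∀ c, ψ c ≠ c).image fun ψ => (u, o u, i u, ψ)

theorem Qv_card (o i : V → V) (u : V) : (Qv (w := w) o i u).card ≤ w ^ w := by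
  classical
  refine Finset.card_image_le.trans ((Finset.card_filter_le _ _).trans ?_)
  simp

theorem Qv_mem {o i : V → V} {u : V} {ψ : Fin w → Fin w} (hψ : ∀ c, ψ c ≠ c) :
    (u, o u, i u, ψ) ∈ Qv (w := w) o i u := by
  classical
  exact Finset.mem_image_of_mem _ (Finset.mem_filter.2 ⟨Finset.mem_univ _, hψ⟩)

theorem Qv_gd {o i : V → V} {I : Finset V}
    (hoi : ∀ z ∈ I, o z ∈ A ∧ i z ∈ A ∧ adj z (o z) ∧ adj (i z) z) {u : V}
    (hu : u ∈ A ∨ u ∈ I) : ∀ q ∈ Qv (w := w) o i u, Gd adj A (I : Set V) q := by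
  classical
  intro q hq
  obtain ⟨ψ, hψ, rfl⟩ := Finset.mem_image.1 hq
  rcases hu with hu | hu
  · exact Or.inl hu
  · obtain ⟨h1, h2, h3, h4⟩ := hoi u hu
    exact Or.inr ⟨hu, h1, h2, h3, h4, (Finset.mem_filter.1 hψ).2⟩

theorem F_co {I : Finset V} {Y : (Wo V w → V) → (Wo V w → V) → Prop}
    {M : Finset (Wo V w → V)} {F : (Wo V w → V) → Fin w} {ω0 : Wo V w} {o i : V → V}
    (hw : 3 ≤ w) (hoi : ∀ z ∈ I, o z ∈ A ∧ i z ∈ A ∧ adj z (o z) ∧ adj (i z) z)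
    (hL : LG adj r Y M F) (hY : ∀ x y, NN adj r c0 A (I : Set V) x y → Y x y)
    {Q : Finset (Qd V w)} (hM : ∀ q ∈ Q, el r A q ∈ M)
    (hF : ∀ q ∈ Q, F (el r A q) = ph c0 A q ω0) {u : V} (hQ : ∀ q ∈ Qv (w := w) o i u, q ∈ Q)
    (huM : cs _ u ∈ M) {c : Fin w} (hc : Co c0 A I ω0 u c) : F (cs _ u) = c := by
  rcases hc with ⟨hu, hc⟩ | ⟨hu, huA, hc⟩
  · obtain ⟨ψ, hψ, _⟩ := fpf_ex (c := (⟨0, by omega⟩ : Fin w)) (d := ⟨1, by omega⟩) (by simp)
    have h := hF _ (hQ _ (Qv_mem (u := u) hψ))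
    simpa [el, ph, hu, hc] using h
  · by_contra hne
    obtain ⟨ψ, hψ, hψc⟩ := fpf_ex hne
    obtain ⟨h1, h2, h3, h4⟩ := hoi u hu
    have hq := hQ _ (Qv_mem (u := u) hψ)
    refine F_ne hL hY huA hu h1 h2 h3 h4 hψ huM (hM _ hq) (hF _ hq) ?_
    simp [gf, hc, hψc]

end HW72
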