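import Pool.Agent.HW72.ExcW

/-!
# HW72/TupW : witnesses for the bounded part and for the isolated exceptional vertices
-/

namespace HW72

open HJ71 HM71 HW71

variable {V : Type} {w : ℕ} {adj : V → V → Prop} {r : Fin w → V} {c0 : Fin w}
  {A I EA EB EE : Finset V}

def HitW (adj : V → V → Prop) (c0 : Fin w) (A EA EB : Finset V) (z u : V) (c : Fin w)
    (ω : Wo V w) : Prop :=
  (z ∈ EA ∧ u ∈ A ∧ adj z u ∧ cw c0 (ω u) = c) ∨ (z ∈ EB ∧ u ∈ A ∧ adj u z ∧ cw c0 (ω u) = c)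

def ytw (adj : V → V → Prop) (c0 : Fin w) (A EA EB EE : Finset V) (t : EE × Fin w → V)
    (ω : Wo V w) : Prop :=
  ∀ g : EE → Fin w, (∃ z : EE, HitW adj c0 A EA EB z.1 (t (z, g z)) (g z) ω) ∨
    BadG adj EA EB EE g

/-- constant for all lines -/
def KA (w b p : ℕ) : ℕ := KN w (b * w + 2 * w ^ w + w) (b + b * w * p + 2) * 10

theorem KA_ge {w b p q s : ℕ} (hw : 1 ≤ w) (hq : q ≤ b * w + 2 * w ^ w + w)
    (hs : s ≤ b + b * w * p + 2) : KN w q s * 10 ≤ KA w b p :=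
  Nat.mul_le_mul_right _ (KN_mono hw hq hs)

theorem KA_ge5 {w b p q s : ℕ} (hw : 1 ≤ w) (hq : q ≤ b * w + 2 * w ^ w + w)
    (hs : s ≤ b + b * w * p + 2) : KN w q s * (0 + 5) ≤ KA w b p :=
  (Nat.mul_le_mul (KN_mono hw hq hs) (by norm_num)).trans le_rfl

open Classical in
theorem tupW_der (hrr : ∀ c c', c ≠ c' → adj (r c) (r c')) {l : List Dig} (hb : Bas (w + 1) l)
    (hw : 3 ≤ w) {p b : ℕ} (hSA : ∀ u ∈ A, SA adj r p u) (hEE : EE.card ≤ b)
    (hEA : EA ⊆ EE) (hEB : EB ⊆ EE)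
    (dA : ∀ z ∈ EA, ∀ c, adj (r c) z) (dB : ∀ z ∈ EB, ∀ c, adj z (r c))
    (hcl : ∀ Y : (Wo V w → V) → (Wo V w → V) → Prop, (∀ x y, PG _ adj x y → Y x y) →
      ∀ z, (z ∈ EA ∨ z ∈ EB) → CldW Y r z → Clo l Y)
    (t : EE × Fin w → V) {a a' : Fin w} (haa : a ≠ a') :
    Der (w + 1) (KA w b p) l (XW adj r c0 A I a a' (ytw adj c0 A EA EB EE t)) := by
  choose B hB1 hB2 hB3 hB4 using hSA
  let U : Finset V := (Finset.univ.image t).filter fun u => u ∈ A
  have hUA : U ⊆ A := fun u hu => (Finset.mem_filter.1 hu).2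
  have hUc : U.card ≤ b * w := by
    refine (Finset.card_filter_le _ _).trans (Finset.card_image_le.trans ?_)
    rw [Finset.card_univ, Fintype.card_prod, Fintype.card_fin, Fintype.card_coe]
    exact Nat.mul_le_mul_right _ hEE
  let Ex : Finset V := EE ∪ U.attach.biUnion fun u => B u.1 (hUA u.2)
  have hEx : Ex.card ≤ b + b * w * p := by
    refine (Finset.card_union_le _ _).trans (Nat.add_le_add hEE ?_)
    refine (Finset.card_biUnion_le_card_mul _ _ p fun u _ => hB1 _ _).trans ?_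
    rw [Finset.card_attach]
    exact Nat.mul_le_mul_right _ hUc
  let Q : Finset (Qd V w) := U.image fun u => (u, u, u, id)
  have hQc : Q.card ≤ b * w := Finset.card_image_le.trans hUc
  refine (locN (c0 := c0) (A := A) (J := (I : Set V)) hrr hb hw
    ![ytw adj c0 A EA EB EE t, fun _ => False, fun _ => False, fun _ => False]
    _ (fun _ _ h => Or.inl h) Q
    (fun q hq => by
      obtain ⟨u, hu, rfl⟩ := Finset.mem_image.1 hq
      exact Or.inl (hUA hu)) (Ex.image fun x => cs _ x) (c := 0) (q := b * w)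
    (s := b + b * w * p) hQc (Finset.card_image_le.trans hEx) ?_).up
    (KA_ge5 (by omega) (by omega) (by omega))
  intro Y hY ω0 M F hL hQM hExM' hFQ _ h5
  have hExM : ∀ x ∈ Ex, cs _ x ∈ M := fun x hx => hExM' _ (Finset.mem_image_of_mem _ hx)
  have hUM : ∀ u ∈ U, cs _ u ∈ M := fun u hu => by
    have := hQM _ (Finset.mem_image_of_mem (fun u : V => ((u, u, u, id) : Qd V w)) hu)
    simpa [el, hUA hu] using this
  have hFU : ∀ u ∈ U, F (cs _ u) = cw c0 (ω0 u) := fun u hu => by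
    have := hFQ _ (Finset.mem_image_of_mem (fun u : V => ((u, u, u, id) : Qd V w)) hu)
    simpa [el, ph, hUA hu] using this
  by_cases hC : ∃ z, (z ∈ EA ∨ z ∈ EB) ∧ CldW Y r z
  · obtain ⟨z, hz, hC⟩ := hC
    exact Der.of_clo (hcl Y hL.pow z hz hC)
  exfalso
  have hEM : ∀ z ∈ EE, cs _ z ∈ M := fun z hz => hExM z (Finset.mem_union_left _ hz)
  have hlow : ∀ z ∈ EA, LowW Y r z := by
    intro z hz
    rcases hL.status (hEM z (hEA hz)) with h | h | ⟨d, _, _, h, _⟩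
    · exact absurd ⟨z, Or.inl hz, h⟩ hC
    · exact h
    · exact absurd (hL.pow _ _ fun _ => dA z hz d) h
  have hhigh : ∀ z ∈ EB, HighW Y r z := by
    intro z hz
    rcases hL.status (hEM z (hEB hz)) with h | ⟨d, _, _, h, _⟩ | h
    · exact absurd ⟨z, Or.inr hz, h⟩ hC
    · exact absurd (hL.pow _ _ fun _ => dB z hz d) h
    · exact h
  have hCu : ∀ u ∈ U, CldW Y r u := by
    intro u hu
    obtain ⟨c, hc⟩ := hB4 u (hUA hu) _ (fun x => cs _ x) M Y (fun x hx => hExM x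
      (Finset.mem_union_right _ (Finset.mem_biUnion.2 ⟨⟨u, hu⟩, Finset.mem_attach _ _, hx⟩)))
      (fun x y h => hL.pow _ _ fun _ => h) hL.pre hL.free
    exact ⟨c, hc.2⟩
  have hy : ytw adj c0 A EA EB EE t ω0 :=
    h5 0 a a' haa fun p q hpq => hY _ _ (Or.inr hpq)
  let g : EE → Fin w := fun z => F (cs _ z.1)
  have hcyc : ∀ E : Finset V, (∃ x : EE, Relation.TransGen
      (fun x y : EE => x.1 ∈ E ∧ y.1 ∈ E ∧ adj x.1 y.1 ∧ g x = g y) x x) → False := by
    rintro E ⟨x, hx⟩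
    have h5 : Relation.TransGen (fun x y => x ∈ E ∩ EE ∧ y ∈ E ∩ EE ∧ adj x y ∧
        F (cs _ x) = F (cs _ y)) x.1 x.1 :=
      Relation.TransGen.lift (fun z : EE => z.1) (fun a b h =>
        ⟨Finset.mem_inter.2 ⟨h.1, a.2⟩, Finset.mem_inter.2 ⟨h.2.1, b.2⟩, h.2.2.1, h.2.2.2⟩) _ _ hx
    exact hL.cycle (fun y hy => hEM y (Finset.mem_inter.1 hy).2) h5
  rcases hy g with ⟨z, ⟨hzA, huA, ha, he⟩ | ⟨hzB, huA, ha, he⟩⟩ | hbad
  · have hu : t (z, g z) ∈ U :=
      Finset.mem_filter.2 ⟨Finset.mem_image_of_mem _ (Finset.mem_univ _), huA⟩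
    exact hL.low_out (hEM _ z.2) (hUM _ hu) (hlow _ hzA) (hCu _ hu) ha
      (he.symm.trans (hFU _ hu).symm)
  · have hu : t (z, g z) ∈ U :=
      Finset.mem_filter.2 ⟨Finset.mem_image_of_mem _ (Finset.mem_univ _), huA⟩
    exact hL.high_in (hEM _ z.2) (hUM _ hu) (hhigh _ hzB) (hCu _ hu) ha
      (he.symm.trans (hFU _ hu).symm)
  · rcases hbad with ⟨z, z', h1, h2, h3, h4⟩ | h | h
    · exact hL.low_high (hEM _ z.2) (hEM _ z'.2) (hlow _ h1) (hhigh _ h2) h3 h4
    · exact hcyc EA h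
    · exact hcyc EB h

/-- the low (`q = true`) or high (`q = false`) vertex `z` cannot have any colour -/
def yi (adj : V → V → Prop) (c0 : Fin w) (A : Finset V) (z : V) (q : Bool) (s : Fin w → V)
    (ω : Wo V w) : Prop :=
  ω z = Sum.inr q ∧ ∀ c, s c ∈ A ∧ (if q then adj z (s c) else adj (s c) z) ∧
    cw c0 (ω (s c)) = c

open Classical in
theorem yi_der (hrr : ∀ c c', c ≠ c' → adj (r c) (r c')) {l : List Dig} (hb : Bas (w + 1) l)
    (hw : 3 ≤ w) {p b : ℕ} {o i : V → V}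
    (hoi : ∀ z ∈ I, o z ∈ A ∧ i z ∈ A ∧ adj z (o z) ∧ adj (i z) z) (hIA : ∀ z ∈ I, z ∉ A)
    {z : V} (hz : z ∈ I) (q : Bool) (s : Fin w → V) {a a' : Fin w} (haa : a ≠ a') :
    Der (w + 1) (KA w b p) l (XW adj r c0 A I a a' (yi adj c0 A z q s)) := by
  by_cases hs : ∀ c, s c ∈ A ∧ (if q then adj z (s c) else adj (s c) z)
  swap
  · refine (locN (c0 := c0) (A := A) (J := (I : Set V)) hrr hb hw
      ![yi adj c0 A z q s, fun _ => False, fun _ => False, fun _ => False]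
      _ (fun _ _ h => Or.inl h) ∅ (by simp) ∅ (c := 0) (q := 0)
      (s := 0) (by simp) (by simp) fun Y hY ω0 M F hL hQM _ hFQ _ h5 => ?_).up
      (KA_ge5 (by omega) (Nat.zero_le _) (Nat.zero_le _))
    exfalso
    have hy : yi adj c0 A z q s ω0 := h5 0 a a' haa fun p q hpq => hY _ _ (Or.inr hpq)
    exact hs fun c => ⟨(hy.2 c).1, (hy.2 c).2.1⟩
  obtain ⟨h1, h2, h3, h4⟩ := hoi z hz
  obtain ⟨ψ, hψ, _⟩ := fpf_ex (c := (⟨0, by omega⟩ : Fin w)) (d := ⟨1, by omega⟩) (by simp)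
  have hww : w ≤ b * w + 2 * w ^ w + w := by omega
  cases q with
  | true =>
    simp only [if_true] at hs
    refine (locN (c0 := c0) (A := A) (J := (I : Set V)) hrr hb hw
      ![yi adj c0 A z true s, fun _ => False, fun _ => False, fun _ => False]
      _ (fun _ _ h => Or.inl h) (Finset.univ.image fun c : Fin w => ((z, s c, i z, ψ) : Qd V w))
      (fun q hq => by
        obtain ⟨c, _, rfl⟩ := Finset.mem_image.1 hq
        exact Or.inr ⟨hz, (hs c).1, h2, (hs c).2, h4, hψ⟩) {cs _ z} (c := 0) (q := w)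
      (s := 1) (Finset.card_image_le.trans (by simp)) (by simp)
      fun Y hY ω0 M F hL hQM hE hFQ _ h5 => ?_).up
      (KA_ge5 (by omega) hww (by omega))
    exfalso
    have hy : yi adj c0 A z true s ω0 := h5 0 a a' haa fun p q hpq => hY _ _ (Or.inr hpq)
    have hm : ((z, s (F (cs _ z)), i z, ψ) : Qd V w) ∈
        Finset.univ.image fun c : Fin w => ((z, s c, i z, ψ) : Qd V w) :=
      Finset.mem_image_of_mem _ (Finset.mem_univ _)
    refine F_ne hL (fun x y h => hY _ _ (Or.inl h)) (hIA z hz) (Finset.mem_coe.2 hz)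
      (hs (F (cs _ z))).1 h2 (hs (F (cs _ z))).2 h4 hψ (hE _ (Finset.mem_singleton_self _))
      (hQM _ hm) (hFQ _ hm) ?_
    have e1 := hy.1
    have e2 := (hy.2 (F (cs _ z))).2.2
    simp [gf, e1, e2]
  | false =>
    simp only [Bool.false_eq_true, if_false] at hs
    refine (locN (c0 := c0) (A := A) (J := (I : Set V)) hrr hb hw
      ![yi adj c0 A z false s, fun _ => False, fun _ => False, fun _ => False]
      _ (fun _ _ h => Or.inl h) (Finset.univ.image fun c : Fin w => ((z, o z, s c, ψ) : Qd V w))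
      (fun q hq => by
        obtain ⟨c, _, rfl⟩ := Finset.mem_image.1 hq
        exact Or.inr ⟨hz, h1, (hs c).1, h3, (hs c).2, hψ⟩) {cs _ z} (c := 0) (q := w)
      (s := 1) (Finset.card_image_le.trans (by simp)) (by simp)
      fun Y hY ω0 M F hL hQM hE hFQ _ h5 => ?_).up
      (KA_ge5 (by omega) hww (by omega))
    exfalso
    have hy : yi adj c0 A z false s ω0 := h5 0 a a' haa fun p q hpq => hY _ _ (Or.inr hpq)
    have hm : ((z, o z, s (F (cs _ z)), ψ) : Qd V w) ∈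
        Finset.univ.image fun c : Fin w => ((z, o z, s c, ψ) : Qd V w) :=
      Finset.mem_image_of_mem _ (Finset.mem_univ _)
    refine F_ne hL (fun x y h => hY _ _ (Or.inl h)) (hIA z hz) (Finset.mem_coe.2 hz) h1
      (hs (F (cs _ z))).1 h3 (hs (F (cs _ z))).2 hψ (hE _ (Finset.mem_singleton_self _))
      (hQM _ hm) (hFQ _ hm) ?_
    have e1 := hy.1
    have e2 := (hy.2 (F (cs _ z))).2.2
    simp [gf, e1, e2]

end HW72
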