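import Pool.Agent.HW72.Loc

/-!
# HW72/Walk : monochromatic walks in the coloured layer, disjunctions
-/

namespace HW72

open HJ71 HM71 HW71

variable {V : Type} {w : ℕ} {adj : V → V → Prop} {r : Fin w → V} {c0 : Fin w} {A I : Finset V}

/-- one step of a monochromatic walk in the coloured layer -/
def Mo (adj : V → V → Prop) (c0 : Fin w) (A I : Finset V) (ω : Wo V w) (u v : V) : Prop :=
  adj u v ∧ ∃ c, Co c0 A I ω u c ∧ Co c0 A I ω v c

/-- Floyd–Warshall -/
def yw (adj : V → V → Prop) (c0 : Fin w) (A I : Finset V) : List V → V → V → Wo V w → Prop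
  | [], u, v, ω => Mo adj c0 A I ω u v
  | z :: L, u, v, ω => yw adj c0 A I L u v ω ∨ (yw adj c0 A I L u z ω ∧ yw adj c0 A I L z v ω)

theorem yw_trans (L : List V) (ω : Wo V w) : ∀ z ∈ L, ∀ u v, yw adj c0 A I L u z ω →
    yw adj c0 A I L z v ω → yw adj c0 A I L u v ω := by
  induction L with
  | nil => intro z hz; simp at hz
  | cons z0 L ih =>
    intro z hz u v h1 h2
    rcases List.mem_cons.1 hz with rfl | hz
    · have g1 : yw adj c0 A I L u z ω := by rcases h1 with h1 | h1; exacts [h1, h1.1]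
      have g2 : yw adj c0 A I L z v ω := by rcases h2 with h2 | h2; exacts [h2, h2.2]
      exact Or.inr ⟨g1, g2⟩
    · rcases h1 with h1 | ⟨h1, h1'⟩
      · rcases h2 with h2 | ⟨h2, h2'⟩
        · exact Or.inl (ih z hz _ _ h1 h2)
        · exact Or.inr ⟨ih z hz _ _ h1 h2, h2'⟩
      · rcases h2 with h2 | ⟨h2, h2'⟩
        · exact Or.inr ⟨h1, ih z hz _ _ h1' h2⟩
        · exact Or.inr ⟨h1, h2'⟩

theorem yw_base (L : List V) (ω : Wo V w) {u v : V} (h : Mo adj c0 A I ω u v) :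
    yw adj c0 A I L u v ω := by
  induction L with
  | nil => exact h
  | cons z L ih => exact Or.inl ih

theorem yw_tg (L : List V) (hL : ∀ z, z ∈ A ∨ z ∈ I → z ∈ L) (ω : Wo V w) {u v : V}
    (h : Relation.TransGen (Mo adj c0 A I ω) u v) : yw adj c0 A I L u v ω := by
  induction h with
  | single h => exact yw_base L ω h
  | tail _ h ih =>
    have hz : ∀ {z c}, Co c0 A I ω z c → z ∈ A ∨ z ∈ I := fun h => h.imp (fun h => h.1) fun h => h.1
    have h' := h
    obtain ⟨_, c, h1, _⟩ := h'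
    exact yw_trans L ω _ (hL _ (hz h1)) _ _ ih (yw_base L ω h)

/-- asserted in the form `a`, `b`, with the arc `v → u` -/
def GW (adj : V → V → Prop) (r : Fin w → V) (c0 : Fin w) (A I : Finset V) (a b : Fin w)
    (L : List V) (u v : V) (p q : Wo V w → V) : Prop :=
  NN adj r c0 A (I : Set V) p q ∨ As r a b (yw adj c0 A I L u v) p q ∨
    (p = cs _ v ∧ q = cs _ u)

/-- constant -/
def KW (w : ℕ) : ℕ := KN w (2 * w ^ w) 2 * 10

theorem KW_ge {w : ℕ} (hw : 1 ≤ w) : KN w 0 0 * 10 ≤ KW w :=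
  Nat.mul_le_mul_right _ (KN_mono hw (Nat.zero_le _) (Nat.zero_le _))

open Classical in
theorem gw_base (hrr : ∀ c c', c ≠ c' → adj (r c) (r c')) {l : List Dig} (hb : Bas (w + 1) l)
    (hw : 3 ≤ w) {o i : V → V}
    (hoi : ∀ z ∈ I, o z ∈ A ∧ i z ∈ A ∧ adj z (o z) ∧ adj (i z) z)
    {a b : Fin w} (hab : a ≠ b) {u v : V} (hu : u ∈ A ∨ u ∈ I) (hv : v ∈ A ∨ v ∈ I) :
    Der (w + 1) (KW w) l (GW adj r c0 A I a b [] u v) := by
  refine locN (c0 := c0) (A := A) (J := (I : Set V)) hrr hb hw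
    ![yw adj c0 A I [] u v, fun _ => False, fun _ => False, fun _ => False] _
    (fun _ _ h => Or.inl h) (Qv o i u ∪ Qv o i v) (fun q hq => ?_)
    {cs _ u, cs _ v} (c := 5) (q := 2 * w ^ w) (s := 2) ?_
    ((Finset.card_insert_le _ _).trans (by simp)) fun Y hY ω0 M F hL h1 h2 h3 _ h5 => ?_
  · rcases Finset.mem_union.1 hq with hq | hq
    · exact Qv_gd hoi hu q hq
    · exact Qv_gd hoi hv q hq
  · refine (Finset.card_union_le _ _).trans ?_
    have g1 := Qv_card (w := w) o i u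
    have g2 := Qv_card (w := w) o i v
    omega
  · exfalso
    obtain ⟨had, c, hc1, hc2⟩ : Mo adj c0 A I ω0 u v :=
      h5 0 a b hab fun p q hpq => hY _ _ (Or.inr (Or.inl hpq))
    have hY' : ∀ x y, NN adj r c0 A (I : Set V) x y → Y x y := fun x y h => hY _ _ (Or.inl h)
    have huM : cs _ u ∈ M := h2 _ (by simp)
    have hvM : cs _ v ∈ M := h2 _ (by simp)
    have e1 : F (cs _ u) = c := F_co hw hoi hL hY' h1 h3
      (fun q hq => Finset.mem_union_left _ hq) huM hc1
    have e2 : F (cs _ v) = c := F_co hw hoi hL hY' h1 h3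
      (fun q hq => Finset.mem_union_right _ hq) hvM hc2
    rcases hL.ch _ huM _ hvM (e1.trans e2.symm) with h | h
    · exact h (hY _ _ (Or.inl (Or.inl fun _ => had)))
    · exact h (hY _ _ (Or.inr (Or.inr ⟨rfl, rfl⟩)))

open Classical in
theorem gw_step (hrr : ∀ c c', c ≠ c' → adj (r c) (r c')) {l : List Dig} (hb : Bas (w + 1) l)
    (hw : 3 ≤ w) (L : List V) {z : V} (hz : z ∈ A ∨ z ∈ I)
    (hl : ∀ a b, a ≠ b → ∀ u v, (u ∈ A ∨ u ∈ I) → (v ∈ A ∨ v ∈ I) →
      Clo l (GW adj r c0 A I a b L u v)) {a b : Fin w}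
    (hab : a ≠ b) {u v : V} (hu : u ∈ A ∨ u ∈ I) (hv : v ∈ A ∨ v ∈ I) :
    Der (w + 1) (KW w) l (GW adj r c0 A I a b (z :: L) u v) := by
  refine (locN (c0 := c0) (A := A) (J := (I : Set V)) hrr hb hw
    ![yw adj c0 A I (z :: L) u v, yw adj c0 A I L u v, yw adj c0 A I L u z,
      yw adj c0 A I L z v] _
    (fun _ _ h => Or.inl h) ∅ (by simp) ∅ (c := 5) (q := 0) (s := 0) (by simp) (by simp)
    fun Y hY ω0 M F _ _ _ _ h1 h2 => ?_).up (KW_ge (by omega))
  have hy : yw adj c0 A I L u v ω0 ∨ (yw adj c0 A I L u z ω0 ∧ yw adj c0 A I L z v ω0) :=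
    h2 0 a b hab fun p q hpq => hY _ _ (Or.inr (Or.inl hpq))
  rcases hy with hy | ⟨hy1, hy2⟩
  · obtain ⟨a', b', hab', h1'⟩ := h1 1 hy
    refine (Der.of_clo ((hl a' b' hab' u v hu hv).le ?_)).up (Nat.zero_le _)
    rintro p q (h | h | h)
    · exact hY _ _ (Or.inl h)
    · exact h1' _ _ h
    · exact hY _ _ (Or.inr (Or.inr h))
  · obtain ⟨a1, b1, hab1, h3⟩ := h1 2 hy1
    obtain ⟨a2, b2, hab2, h4⟩ := h1 3 hy2
    refine Der.cut (c := 0) (c' := 0) hb (a := cs _ v) (b := cs _ z) (d := cs _ u)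
      (hY _ _ (Or.inr (Or.inr ⟨rfl, rfl⟩))) (Der.of_clo ((hl a2 b2 hab2 z v hz hv).le ?_))
      (Der.of_clo ((hl a1 b1 hab1 u z hu hz).le ?_))
    · rintro p q (h | h | h)
      · exact Or.inl (hY _ _ (Or.inl h))
      · exact Or.inl (h4 _ _ h)
      · exact Or.inr h
    · rintro p q (h | h | h)
      · exact Or.inl (hY _ _ (Or.inl h))
      · exact Or.inl (h3 _ _ h)
      · exact Or.inr h

open Classical in
theorem gw_all [Fintype V] (hrr : ∀ c c', c ≠ c' → adj (r c) (r c')) {l : List Dig}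
    (hb : Bas (w + 1) l) (hw : 3 ≤ w) {o i : V → V}
    (hoi : ∀ z ∈ I, o z ∈ A ∧ i z ∈ A ∧ adj z (o z) ∧ adj (i z) z)
    (L : List V) (hLA : ∀ z ∈ L, z ∈ A ∨ z ∈ I) :
    ∃ l', Ext (w + 1) ((L.length + 1) * (Fintype.card V * Fintype.card V *
      (w * w * KW w))) l l' ∧
      ∀ a b, a ≠ b → ∀ u v, (u ∈ A ∨ u ∈ I) → (v ∈ A ∨ v ∈ I) →
        Clo l' (GW adj r c0 A I a b L u v) := by
  let S : Finset ((Fin w × Fin w) × (V × V)) :=
    Finset.univ.filter fun p => p.1.1 ≠ p.1.2 ∧ (p.2.1 ∈ A ∨ p.2.1 ∈ I) ∧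
      (p.2.2 ∈ A ∨ p.2.2 ∈ I)
  have hS : S.card ≤ w * w * (Fintype.card V * Fintype.card V) := by
    refine (Finset.card_filter_le _ _).trans ?_
    simp
  have hcost : S.card * KW w ≤ Fintype.card V * Fintype.card V * (w * w * KW w) := by
    calc S.card * KW w ≤ w * w * (Fintype.card V * Fintype.card V) * KW w :=
          Nat.mul_le_mul_right _ hS
      _ = _ := by ring
  induction L with
  | nil =>
    obtain ⟨l', e, h⟩ := der_all (k := w + 1) (l := l) S
      (W := fun _ => Wo V w → V) (fun p => GW adj r c0 A I p.1.1 p.1.2 [] p.2.1 p.2.2)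
      (c := KW w)
      (fun p hp => gw_base hrr hb hw hoi (Finset.mem_filter.1 hp).2.1
        (Finset.mem_filter.1 hp).2.2.1 (Finset.mem_filter.1 hp).2.2.2) l fun T h => h
    refine ⟨l', e.up ?_, fun a b hab u v hu hv => h ((a, b), (u, v))
      (by simp [S, hab, hu, hv])⟩
    simpa using hcost
  | cons z L ih =>
    obtain ⟨l1, e1, h1⟩ := ih fun z hz => hLA z (List.mem_cons_of_mem _ hz)
    obtain ⟨l', e, h⟩ := der_all (k := w + 1) (l := l1) S
      (W := fun _ => Wo V w → V) (fun p => GW adj r c0 A I p.1.1 p.1.2 (z :: L) p.2.1 p.2.2)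
      (c := KW w)
      (fun p hp => gw_step hrr (hb.ext e1) hw L (hLA z List.mem_cons_self) h1
        (Finset.mem_filter.1 hp).2.1 (Finset.mem_filter.1 hp).2.2.1
        (Finset.mem_filter.1 hp).2.2.2) l1 fun T h => h
    refine ⟨l', (e1.trans e).up ?_, fun a b hab u v hu hv => h ((a, b), (u, v))
      (by simp [S, hab, hu, hv])⟩
    rw [List.length_cons, Nat.add_mul (L.length + 1) 1, one_mul]
    exact Nat.add_le_add_left hcost _

/-- `y` asserted -/
def XW (adj : V → V → Prop) (r : Fin w → V) (c0 : Fin w) (A I : Finset V) (a b : Fin w)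
    (y : Wo V w → Prop) (p q : Wo V w → V) : Prop :=
  NN adj r c0 A (I : Set V) p q ∨ As r a b y p q

open Classical in
/-- a disjunction of asserted statements -/
theorem orw (hrr : ∀ c c', c ≠ c' → adj (r c) (r c')) {l : List Dig} (hb : Bas (w + 1) l)
    (hw : 3 ≤ w) {ι : Type} (y : ι → Wo V w → Prop) (P : Finset ι)
    (hl : ∀ i ∈ P, ∀ a b, a ≠ b → Clo l (XW adj r c0 A I a b (y i))) :
    ∃ l', Ext (w + 1) ((P.card + 1) * (w * w * KW w)) l l' ∧
      ∀ a b, a ≠ b → Clo l' (XW adj r c0 A I a b fun ω => ∃ i ∈ P, y i ω) := by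
  let S : Finset (Fin w × Fin w) := Finset.univ.filter fun p => p.1 ≠ p.2
  have hS : S.card ≤ w * w := by
    refine (Finset.card_filter_le _ _).trans ?_
    simp
  have hcost : S.card * KW w ≤ w * w * KW w := Nat.mul_le_mul_right _ hS
  induction P using Finset.induction_on with
  | empty =>
    obtain ⟨l', e, h⟩ := der_all (k := w + 1) (l := l) S
      (W := fun _ => Wo V w → V)
      (fun p => XW adj r c0 A I p.1 p.2 fun ω => ∃ i ∈ (∅ : Finset ι), y i ω) (c := KW w)
      (fun p hp => by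
        refine (locN (c0 := c0) (A := A) (J := (I : Set V)) hrr hb hw
          ![fun ω => ∃ i ∈ (∅ : Finset ι), y i ω, fun _ => False,
          fun _ => False, fun _ => False] _ (fun _ _ h => Or.inl h) ∅ (by simp) ∅ (c := 5)
          (q := 0) (s := 0) (by simp) (by simp)
          fun Y hY ω0 M F _ _ _ _ _ h2 => ?_).up (KW_ge (by omega))
        exfalso
        obtain ⟨e, he, _⟩ : ∃ i ∈ (∅ : Finset ι), y i ω0 :=
          h2 0 p.1 p.2 (Finset.mem_filter.1 hp).2 fun p q hpq => hY _ _ (Or.inr hpq)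
        simp at he) l fun T h => h
    refine ⟨l', e.up ?_, fun a b hab => h (a, b) (by simp [S, hab])⟩
    simpa using hcost
  | insert e P heP ih =>
    obtain ⟨l1, e1, h1⟩ := ih fun i hi => hl i (Finset.mem_insert_of_mem hi)
    rw [Finset.card_insert_of_notMem heP]
    obtain ⟨l', e', h⟩ := der_all (k := w + 1) (l := l1) S
      (W := fun _ => Wo V w → V)
      (fun p => XW adj r c0 A I p.1 p.2 fun ω => ∃ i ∈ insert e P, y i ω)
      (c := KW w) (fun p hp => by
        refine (locN (c0 := c0) (A := A) (J := (I : Set V)) hrr (hb.ext e1) hw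
          ![fun ω => ∃ i ∈ insert e P, y i ω,
          fun ω => ∃ i ∈ P, y i ω, y e, fun _ => False] _ (fun _ _ h => Or.inl h) ∅ (by simp)
          ∅ (c := 5) (q := 0) (s := 0) (by simp) (by simp)
          fun Y hY ω0 M F _ _ _ _ h1' h2 => ?_).up (KW_ge (by omega))
        obtain ⟨f, hf, h3⟩ : ∃ i ∈ insert e P, y i ω0 :=
          h2 0 p.1 p.2 (Finset.mem_filter.1 hp).2 fun p q hpq => hY _ _ (Or.inr hpq)
        rcases Finset.mem_insert.1 hf with rfl | hf
        · obtain ⟨a, b, hab, h5⟩ := h1' 2 h3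
          refine (Der.of_clo (((hl f (Finset.mem_insert_self _ _) a b hab).sub e1.1).le ?_)).up
            (Nat.zero_le _)
          rintro p q (h | h)
          · exact hY _ _ (Or.inl h)
          · exact h5 _ _ h
        · obtain ⟨a, b, hab, h5⟩ := h1' 1 ⟨f, hf, h3⟩
          refine (Der.of_clo ((h1 a b hab).le ?_)).up (Nat.zero_le _)
          rintro p q (h | h)
          · exact hY _ _ (Or.inl h)
          · exact h5 _ _ h) l1 fun T h => h
    refine ⟨l', (e1.trans e').up ?_, fun a b hab => h (a, b) (by simp [S, hab])⟩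
    rw [Nat.add_mul (P.card + 1) 1, one_mul]
    exact Nat.add_le_add_left hcost _

end HW72
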